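import Pool.Agent.Lib.MP_ea42c6_pr.Three.Defs

/-!
# The case `ξ = 1`, radii above the threshold: definitions used in the proof
-/

namespace EA42

open MeasureTheory
open scoped Classical ENNReal

noncomputable section

/-- `∑_w pk i x w pk j y w`. -/
def m2 {V : Type*} [Fintype V] (B : V → Finset V) (i j : ℕ) (x y : V) : ℝ :=
  ∑ w, pk B i x w * pk B j y w

/-- Probability that two walks, of `i` steps from `x` and of `j` steps from `y`, avoid `S`, are
self-avoiding and meet exactly at their ends. -/
def mt {V : Type*} [Fintype V] (B : V → Finset V) : ℕ → ℕ → Set V → V → V → ℝ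
  | 0, j, S, x, y => st B j S y x
  | i + 1, j, S, x, y => if x ∈ S then 0 else ∑ v, kerW B x v * mt B i j (insert x S) v y

/-- The orbits of `x` and `y` meet for the first time at the times `i`, `j`. -/
def ME {V : Type*} (f : V → V) (i j : ℕ) (x y : V) : Prop :=
  OrbInj f x i ∧ OrbInj f y j ∧ f^[i] x = f^[j] y ∧ ∀ a < i, ∀ b ≤ j, f^[a] x ≠ f^[b] y

/-- They meet within `t` steps. -/
def Meets {V : Type*} (f : V → V) (t : ℕ) (x y : V) : Prop :=
  ∃ i ≤ t, ∃ j ≤ t, ME f i j x y

/-- The vertices `u i` are in different components. -/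
def Dist {V : Type*} {m : ℕ} (f : V → V) (u : Fin m → V) : Prop :=
  ∀ i j, i ≠ j → ¬ (mapG f).Reachable (u i) (u j)

end

end EA42
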