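import Pool.Agent.Lib.MP_ea42c6_pr.Four.Defs
import Pool.Agent.Lib.MP_ea42c6_pr.Three.U20

/-!
# W1 — meeting probability, exact recursion

Induction on `i` (for all `S`, `x`).  `i = 0`: the event contains `{OrbInj f y j, the orbit of y avoids S up to
j, f^[j] y = x}`, `orbit_st` (U20).  `i + 1`: if `x ∈ S` the left side is 0.  If `x ∉ S` the event contains the
disjoint union over `v` of `{f x = v} ∩ E'_v`, `E'_v` the event for `i`, `insert x S`, `v` (the orbit of `v` avoids
`x`, so the orbit of `x` is injective; the orbit of `y` avoids `x`), and `E'_v` does not depend on the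
coordinate `x`: `pr = kerW x v pr E'_v` (`N7_indep`, as in U20 / R9).
-/

namespace EA42

open scoped Classical

theorem mt_le {V : Type*} [Fintype V] [DecidableEq V] {B : V → Finset V}
    (hself : ∀ u, u ∈ B u) (i j : ℕ) (S : Set V) (x y : V) :
    mt B i j S x y ≤ pr (prodW (kerW B)) {f | ME f i j x y ∧ (∀ a ≤ i, f^[a] x ∉ S) ∧
      ∀ b ≤ j, f^[b] y ∉ S} := by
  have hP := isProb_prodW (fun i => isProb_kerW hself i)
  induction i generalizing S x with
  | zero =>
    have h0 : mt B 0 j S x y = st B j S y x := rfl
    rw [h0, ← orbit_st hself j S y x]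
    refine pr_mono hP ?_
    rintro f ⟨hinj, hS, hw⟩
    refine ⟨⟨?_, hinj, ?_, ?_⟩, ?_, hS⟩
    · intro a ha b hb _
      omega
    · rw [Function.iterate_zero_apply]
      exact hw.symm
    · intro a ha
      omega
    · intro a ha
      obtain rfl : a = 0 := by omega
      rw [Function.iterate_zero_apply, ← hw]
      exact hS j le_rfl
  | succ i ih =>
    by_cases hx : x ∈ S
    · have h0 : mt B (i + 1) j S x y = 0 := by
        rw [mt, if_pos hx]
      rw [h0]
      exact pr_nonneg hP _
    · have h0 : mt B (i + 1) j S x y = ∑ v, kerW B x v * mt B i j (insert x S) v y := by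
        rw [mt, if_neg hx]
      rw [h0, U20_split _ x]
      refine Finset.sum_le_sum fun v _ => ?_
      refine le_trans (mul_le_mul_of_nonneg_left (ih (insert x S) v) (kerW_nonneg _ _)) ?_
      rw [← N7_indep hself x v]
      · refine pr_mono hP ?_
        rintro f ⟨hv, ⟨hinj, hinjy, hw, hne⟩, hSx, hSy⟩
        obtain rfl : f x = v := hv
        refine ⟨rfl, ⟨?_, hinjy, ?_, ?_⟩, ?_, ?_⟩
        · exact U20_cons hinj fun b hb h => hSx b hb (by rw [h]; exact Set.mem_insert _ _)
        · rw [Function.iterate_succ_apply]
          exact hw
        · intro a ha b hb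
          rcases a with _ | a
          · rw [Function.iterate_zero_apply]
            intro h
            exact hSy b hb (by rw [← h]; exact Set.mem_insert _ _)
          · rw [Function.iterate_succ_apply]
            exact hne a (by omega) b hb
        · intro a ha
          rcases a with _ | a
          · exact hx
          · rw [Function.iterate_succ_apply]
            exact fun h => hSx a (by omega) (Set.mem_insert_of_mem _ h)
        · intro b hb h
          exact hSy b hb (Set.mem_insert_of_mem _ h)
      · have key : ∀ f g : V → V, (∀ z, z ≠ x → f z = g z) →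
            (ME f i j v y ∧ (∀ a ≤ i, f^[a] v ∉ insert x S) ∧ ∀ b ≤ j, f^[b] y ∉ insert x S) →
            (ME g i j v y ∧ (∀ a ≤ i, g^[a] v ∉ insert x S) ∧
              ∀ b ≤ j, g^[b] y ∉ insert x S) := by
          rintro f g hfg ⟨⟨hinj, hinjy, hw, hne⟩, hSx, hSy⟩
          have hv := U20_indep x v f g hfg i (fun a ha h => hSx a ha.le (by
            rw [h]
            exact Set.mem_insert _ _))
          have hy := U20_indep x y f g hfg j (fun b hb h => hSy b hb.le (by
            rw [h]
            exact Set.mem_insert _ _))
          refine ⟨⟨?_, ?_, ?_, ?_⟩, ?_, ?_⟩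
          · intro a ha b hb hab
            rw [← hv a ha, ← hv b hb] at hab
            exact hinj a ha b hb hab
          · intro a ha b hb hab
            rw [← hy a ha, ← hy b hb] at hab
            exact hinjy a ha b hb hab
          · rw [← hv i le_rfl, ← hy j le_rfl]
            exact hw
          · intro a ha b hb
            rw [← hv a ha.le, ← hy b hb]
            exact hne a ha b hb
          · intro a ha
            rw [← hv a ha]
            exact hSx a ha
          · intro b hb
            rw [← hy b hb]
            exact hSy b hb
        intro f g h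
        have h' : ∀ z, z ≠ x → f z = g z := fun z hz => h z (by simpa using hz)
        exact ⟨key f g h', key g f fun z hz => (h' z hz).symm⟩

end EA42
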