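import Pool.Agent.Lib.MP_ea42c6_pr.Four.Defs
import Pool.Agent.Lib.MP_ea42c6_pr.Three.U19

/-!
# W2 — meeting probability, lower bound

Induction on `i` (for all `S`, `x`).  `i = 0`: `m2 0 j x y = pk j y x` and `st_lower` (U19) for the walk from `y`
(`m2 0 (j-b) x z = pk (j-b) z x`; the second and the fourth sum).  `i + 1`, `x ∈ S`: the term `a = 0`, `z = x` of
the first sum is `m2 (i+1) j x y`.  `i + 1`, `x ∉ S`: `m2 (i+1) j x y = ∑ v, kerW x v m2 i j v y`; induction hypothesis
with `insert x S`, and `∑ v, kerW x v pk a v z = pk (a+1) x z`, `∑ v, kerW x v m2 i j' v z = m2 (i+1) j' x z`: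
first sum, `z ∈ S`: the terms `a+1` of the first sum; `z = x`: the terms `(0, a+1)` of the third sum;
second sum, `z ∈ S`: second sum; `z = x`: the terms `(0, b)` of the fifth sum; third: `(a+1, a'+1)`;
fourth: fourth; fifth: `(a+1, b)`.
-/

namespace EA42

open scoped Classical

variable {V : Type*} [Fintype V] {B : V → Finset V}

theorem m2_succ (i j : ℕ) (x y : V) :
    m2 B (i + 1) j x y = ∑ v, kerW B x v * m2 B i j v y := by
  unfold m2
  have h1 : ∀ w, pk B (i + 1) x w * pk B j y w =
      ∑ v, kerW B x v * (pk B i v w * pk B j y w) := by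
    intro w
    have h2 : pk B (i + 1) x w = ∑ v, kerW B x v * pk B i v w := rfl
    rw [h2, Finset.sum_mul]
    exact Finset.sum_congr rfl fun v _ => mul_assoc _ _ _
  rw [Finset.sum_congr rfl fun w _ => h1 w, Finset.sum_comm]
  exact Finset.sum_congr rfl fun v _ => (Finset.mul_sum _ _ _).symm

private theorem W2_m2_nonneg (i j : ℕ) (x y : V) : 0 ≤ m2 B i j x y :=
  Finset.sum_nonneg fun _ _ => mul_nonneg (pk_nonneg _ _ _) (pk_nonneg _ _ _)

private theorem W2_m2_zero (j : ℕ) (x y : V) : m2 B 0 j x y = pk B j y x := by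
  unfold m2
  have h1 : ∀ w, pk B 0 x w * pk B j y w = if x = w then pk B j y w else 0 := by
    intro w
    show (if x = w then (1 : ℝ) else 0) * pk B j y w = _
    split_ifs
    · rw [one_mul]
    · rw [zero_mul]
  rw [Finset.sum_congr rfl fun w _ => h1 w, Finset.sum_ite_eq, if_pos (Finset.mem_univ _)]

private theorem W2_st_nonneg (K : ℕ) : ∀ (S : Set V) (u x : V), 0 ≤ st B K S u x := by
  induction K with
  | zero =>
    intro S u x
    unfold st
    split_ifs <;> norm_num
  | succ K ih =>
    intro S u x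
    unfold st
    split_ifs
    · exact le_rfl
    · exact Finset.sum_nonneg fun v _ => mul_nonneg (kerW_nonneg _ _) (ih _ _ _)

private theorem W2_mt_nonneg (i j : ℕ) : ∀ (S : Set V) (x y : V), 0 ≤ mt B i j S x y := by
  induction i with
  | zero =>
    intro S x y
    unfold mt
    exact W2_st_nonneg _ _ _ _
  | succ i ih =>
    intro S x y
    unfold mt
    split_ifs
    · exact le_rfl
    · exact Finset.sum_nonneg fun v _ => mul_nonneg (kerW_nonneg _ _) (ih _ _ _)

private theorem W2_Lsum {ι : Type*} (s : Finset ι) (x : V) (g : ι → V → ℝ) :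
    ∑ v, kerW B x v * ∑ i ∈ s, g i v = ∑ i ∈ s, ∑ v, kerW B x v * g i v := by
  have h : ∀ v, kerW B x v * ∑ i ∈ s, g i v = ∑ i ∈ s, kerW B x v * g i v :=
    fun v => Finset.mul_sum _ _ _
  rw [Finset.sum_congr rfl fun v _ => h v, Finset.sum_comm]

private theorem W2_Lmul (x : V) (c : ℝ) (g : V → ℝ) :
    ∑ v, kerW B x v * (c * g v) = c * ∑ v, kerW B x v * g v := by
  rw [Finset.mul_sum]
  exact Finset.sum_congr rfl fun v _ => by ring

private theorem W2_Lmulr (x : V) (c : ℝ) (g : V → ℝ) :
    ∑ v, kerW B x v * (g v * c) = (∑ v, kerW B x v * g v) * c := by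
  rw [Finset.sum_mul]
  exact Finset.sum_congr rfl fun v _ => by ring

private theorem W2_delta (x : V) (g : V → ℝ) : ∑ z, pk B 0 x z * g z = g x := by
  have h1 : ∀ z, pk B 0 x z * g z = if x = z then g z else 0 := by
    intro z
    show (if x = z then (1 : ℝ) else 0) * g z = _
    split_ifs
    · rw [one_mul]
    · rw [zero_mul]
  rw [Finset.sum_congr rfl fun z _ => h1 z, Finset.sum_ite_eq, if_pos (Finset.mem_univ _)]

theorem mt_lower (i j : ℕ) (S : Finset V) (x y : V) :
    m2 B i j x y ≤ mt B i j (S : Set V) x y +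
      ∑ a ∈ Finset.range (i + 1), ∑ z ∈ S, pk B a x z * m2 B (i - a) j z y +
      ∑ b ∈ Finset.range (j + 1), ∑ z ∈ S, pk B b y z * m2 B i (j - b) x z +
      ∑ a' ∈ Finset.range (i + 1), ∑ a ∈ Finset.range a', ∑ z,
        pk B a x z * pk B (a' - a) z z * m2 B (i - a') j z y +
      ∑ b' ∈ Finset.range (j + 1), ∑ b ∈ Finset.range b', ∑ z,
        pk B b y z * pk B (b' - b) z z * m2 B i (j - b') x z +
      ∑ a ∈ Finset.range i, ∑ b ∈ Finset.range (j + 1), ∑ z,
        pk B a x z * pk B b y z * m2 B (i - a) (j - b) z z := by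
  have n1 : ∀ (i : ℕ) (S : Finset V) (x : V),
      0 ≤ ∑ a ∈ Finset.range (i + 1), ∑ z ∈ S, pk B a x z * m2 B (i - a) j z y :=
    fun i S x => Finset.sum_nonneg fun a _ => Finset.sum_nonneg fun z _ =>
      mul_nonneg (pk_nonneg _ _ _) (W2_m2_nonneg _ _ _ _)
  have n2 : ∀ (i : ℕ) (S : Finset V) (x : V),
      0 ≤ ∑ b ∈ Finset.range (j + 1), ∑ z ∈ S, pk B b y z * m2 B i (j - b) x z :=
    fun i S x => Finset.sum_nonneg fun a _ => Finset.sum_nonneg fun z _ =>
      mul_nonneg (pk_nonneg _ _ _) (W2_m2_nonneg _ _ _ _)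
  have n3 : ∀ (i : ℕ) (x : V), 0 ≤ ∑ a' ∈ Finset.range (i + 1), ∑ a ∈ Finset.range a', ∑ z,
      pk B a x z * pk B (a' - a) z z * m2 B (i - a') j z y :=
    fun i x => Finset.sum_nonneg fun a _ => Finset.sum_nonneg fun z _ =>
      Finset.sum_nonneg fun z _ =>
      mul_nonneg (mul_nonneg (pk_nonneg _ _ _) (pk_nonneg _ _ _)) (W2_m2_nonneg _ _ _ _)
  have n4 : ∀ (i : ℕ) (x : V), 0 ≤ ∑ b' ∈ Finset.range (j + 1), ∑ b ∈ Finset.range b', ∑ z,
      pk B b y z * pk B (b' - b) z z * m2 B i (j - b') x z :=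
    fun i x => Finset.sum_nonneg fun a _ => Finset.sum_nonneg fun z _ =>
      Finset.sum_nonneg fun z _ =>
      mul_nonneg (mul_nonneg (pk_nonneg _ _ _) (pk_nonneg _ _ _)) (W2_m2_nonneg _ _ _ _)
  have n5 : ∀ (i : ℕ) (x : V), 0 ≤ ∑ a ∈ Finset.range i, ∑ b ∈ Finset.range (j + 1), ∑ z,
      pk B a x z * pk B b y z * m2 B (i - a) (j - b) z z :=
    fun i x => Finset.sum_nonneg fun a _ => Finset.sum_nonneg fun z _ =>
      Finset.sum_nonneg fun z _ =>
      mul_nonneg (mul_nonneg (pk_nonneg _ _ _) (pk_nonneg _ _ _)) (W2_m2_nonneg _ _ _ _)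
  induction i generalizing S x with
  | zero =>
    have h1 := st_lower (B := B) j S y x
    have h2 : mt B 0 j (S : Set V) x y = st B j (S : Set V) y x := by
      unfold mt
      rfl
    have e0 : m2 B 0 j x y = pk B j y x := W2_m2_zero _ _ _
    have e2 : ∑ b ∈ Finset.range (j + 1), ∑ z ∈ S, pk B b y z * m2 B 0 (j - b) x z =
        ∑ b ∈ Finset.range (j + 1), ∑ z ∈ S, pk B b y z * pk B (j - b) z x :=
      Finset.sum_congr rfl fun b _ => Finset.sum_congr rfl fun z _ => by rw [W2_m2_zero]
    have e4 : ∑ b' ∈ Finset.range (j + 1), ∑ b ∈ Finset.range b', ∑ z,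
        pk B b y z * pk B (b' - b) z z * m2 B 0 (j - b') x z =
        ∑ b' ∈ Finset.range (j + 1), ∑ b ∈ Finset.range b', ∑ z,
        pk B b y z * pk B (b' - b) z z * pk B (j - b') z x :=
      Finset.sum_congr rfl fun b' _ => Finset.sum_congr rfl fun b _ =>
        Finset.sum_congr rfl fun z _ => by rw [W2_m2_zero]
    have m1 := n1 0 S x
    have m3 := n3 0 x
    have m5 := n5 0 x
    rw [e0, h2, e2, e4]
    linarith
  | succ i ih =>
    have m1 := n1 (i + 1) S x
    have m2' := n2 (i + 1) S x
    have m3 := n3 (i + 1) x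
    have m4 := n4 (i + 1) x
    have m5 := n5 (i + 1) x
    by_cases hx : x ∈ S
    · have m0 := W2_mt_nonneg (B := B) (i + 1) j (S : Set V) x y
      have h3 : m2 B (i + 1) j x y ≤
          ∑ a ∈ Finset.range (i + 1 + 1), ∑ z ∈ S, pk B a x z * m2 B (i + 1 - a) j z y := by
        refine le_trans ?_ (Finset.single_le_sum
          (f := fun a => ∑ z ∈ S, pk B a x z * m2 B (i + 1 - a) j z y)
          (fun a _ => Finset.sum_nonneg fun z _ =>
            mul_nonneg (pk_nonneg _ _ _) (W2_m2_nonneg _ _ _ _))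
          (Finset.mem_range.mpr (Nat.succ_pos (i + 1))))
        refine le_trans ?_ (Finset.single_le_sum
          (f := fun z => pk B 0 x z * m2 B (i + 1 - 0) j z y)
          (fun z _ => mul_nonneg (pk_nonneg _ _ _) (W2_m2_nonneg _ _ _ _)) hx)
        have h0 : pk B 0 x x = 1 := by unfold pk; exact if_pos rfl
        show m2 B (i + 1) j x y ≤ pk B 0 x x * m2 B (i + 1 - 0) j x y
        rw [h0, one_mul, Nat.sub_zero]
      linarith
    · have key : ∀ a z, ∑ v, kerW B x v * pk B a v z = pk B (a + 1) x z := fun a z => rfl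
      have keym : ∀ j' z, ∑ v, kerW B x v * m2 B i j' v z = m2 B (i + 1) j' x z :=
        fun j' z => (m2_succ i j' x z).symm
      have hmt : mt B (i + 1) j (S : Set V) x y =
          ∑ v, kerW B x v * mt B i j ((insert x S : Finset V) : Set V) v y := by
        rw [Finset.coe_insert]
        rw [mt, if_neg (fun h => hx (Finset.mem_coe.mp h))]
      have hle : m2 B (i + 1) j x y ≤ ∑ v, kerW B x v *
          (mt B i j ((insert x S : Finset V) : Set V) v y +
            ∑ a ∈ Finset.range (i + 1), ∑ z ∈ insert x S, pk B a v z * m2 B (i - a) j z y +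
            ∑ b ∈ Finset.range (j + 1), ∑ z ∈ insert x S, pk B b y z * m2 B i (j - b) v z +
            ∑ a' ∈ Finset.range (i + 1), ∑ a ∈ Finset.range a', ∑ z,
              pk B a v z * pk B (a' - a) z z * m2 B (i - a') j z y +
            ∑ b' ∈ Finset.range (j + 1), ∑ b ∈ Finset.range b', ∑ z,
              pk B b y z * pk B (b' - b) z z * m2 B i (j - b') v z +
            ∑ a ∈ Finset.range i, ∑ b ∈ Finset.range (j + 1), ∑ z,
              pk B a v z * pk B b y z * m2 B (i - a) (j - b) z z) := by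
        rw [m2_succ]
        exact Finset.sum_le_sum fun v _ => mul_le_mul_of_nonneg_left (ih (insert x S) v)
          (kerW_nonneg _ _)
      have e1 : ∑ v, kerW B x v * ∑ a ∈ Finset.range (i + 1), ∑ z ∈ insert x S,
          pk B a v z * m2 B (i - a) j z y =
          ∑ a ∈ Finset.range (i + 1), pk B (a + 1) x x * m2 B (i - a) j x y +
          ∑ a ∈ Finset.range (i + 1), ∑ z ∈ S, pk B (a + 1) x z * m2 B (i - a) j z y := by
        rw [W2_Lsum, ← Finset.sum_add_distrib]
        refine Finset.sum_congr rfl fun a _ => ?_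
        rw [W2_Lsum, Finset.sum_insert hx]
        congr 1
        · rw [W2_Lmulr, key]
        · exact Finset.sum_congr rfl fun z _ => by rw [W2_Lmulr, key]
      have e2 : ∑ v, kerW B x v * ∑ b ∈ Finset.range (j + 1), ∑ z ∈ insert x S,
          pk B b y z * m2 B i (j - b) v z =
          ∑ b ∈ Finset.range (j + 1), pk B b y x * m2 B (i + 1) (j - b) x x +
          ∑ b ∈ Finset.range (j + 1), ∑ z ∈ S, pk B b y z * m2 B (i + 1) (j - b) x z := by
        rw [W2_Lsum, ← Finset.sum_add_distrib]
        refine Finset.sum_congr rfl fun b _ => ?_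
        rw [W2_Lsum, Finset.sum_insert hx]
        congr 1
        · rw [W2_Lmul, keym]
        · exact Finset.sum_congr rfl fun z _ => by rw [W2_Lmul, keym]
      have e3 : ∑ v, kerW B x v * ∑ a' ∈ Finset.range (i + 1), ∑ a ∈ Finset.range a', ∑ z,
          pk B a v z * pk B (a' - a) z z * m2 B (i - a') j z y =
          ∑ a' ∈ Finset.range (i + 1), ∑ a ∈ Finset.range a', ∑ z,
            pk B (a + 1) x z * pk B (a' - a) z z * m2 B (i - a') j z y := by
        rw [W2_Lsum]
        refine Finset.sum_congr rfl fun a' _ => ?_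
        rw [W2_Lsum]
        refine Finset.sum_congr rfl fun a _ => ?_
        rw [W2_Lsum]
        exact Finset.sum_congr rfl fun z _ => by rw [W2_Lmulr, W2_Lmulr, key]
      have e4 : ∑ v, kerW B x v * ∑ b' ∈ Finset.range (j + 1), ∑ b ∈ Finset.range b', ∑ z,
          pk B b y z * pk B (b' - b) z z * m2 B i (j - b') v z =
          ∑ b' ∈ Finset.range (j + 1), ∑ b ∈ Finset.range b', ∑ z,
            pk B b y z * pk B (b' - b) z z * m2 B (i + 1) (j - b') x z := by
        rw [W2_Lsum]
        refine Finset.sum_congr rfl fun b' _ => ?_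
        rw [W2_Lsum]
        refine Finset.sum_congr rfl fun b _ => ?_
        rw [W2_Lsum]
        exact Finset.sum_congr rfl fun z _ => by rw [W2_Lmul, keym]
      have e5 : ∑ v, kerW B x v * ∑ a ∈ Finset.range i, ∑ b ∈ Finset.range (j + 1), ∑ z,
          pk B a v z * pk B b y z * m2 B (i - a) (j - b) z z =
          ∑ a ∈ Finset.range i, ∑ b ∈ Finset.range (j + 1), ∑ z,
            pk B (a + 1) x z * pk B b y z * m2 B (i - a) (j - b) z z := by
        rw [W2_Lsum]
        refine Finset.sum_congr rfl fun a _ => ?_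
        rw [W2_Lsum]
        refine Finset.sum_congr rfl fun b _ => ?_
        rw [W2_Lsum]
        exact Finset.sum_congr rfl fun z _ => by rw [W2_Lmulr, W2_Lmulr, key]
      have f1 : ∑ a ∈ Finset.range (i + 1), ∑ z ∈ S, pk B (a + 1) x z * m2 B (i - a) j z y ≤
          ∑ a ∈ Finset.range (i + 1 + 1), ∑ z ∈ S, pk B a x z * m2 B (i + 1 - a) j z y := by
        rw [Finset.sum_range_succ' (fun a => ∑ z ∈ S, pk B a x z * m2 B (i + 1 - a) j z y)]
        have h0 : 0 ≤ ∑ z ∈ S, pk B 0 x z * m2 B (i + 1 - 0) j z y :=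
          Finset.sum_nonneg fun z _ => mul_nonneg (pk_nonneg _ _ _) (W2_m2_nonneg _ _ _ _)
        have h4 : ∑ a ∈ Finset.range (i + 1), ∑ z ∈ S, pk B (a + 1) x z * m2 B (i - a) j z y =
            ∑ a ∈ Finset.range (i + 1), ∑ z ∈ S,
              pk B (a + 1) x z * m2 B (i + 1 - (a + 1)) j z y :=
          Finset.sum_congr rfl fun a _ => by rw [Nat.add_sub_add_right]
        rw [h4]
        exact le_add_of_nonneg_right h0
      have f3 : ∑ a' ∈ Finset.range (i + 1 + 1), ∑ a ∈ Finset.range a', ∑ z,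
          pk B a x z * pk B (a' - a) z z * m2 B (i + 1 - a') j z y =
          ∑ a ∈ Finset.range (i + 1), pk B (a + 1) x x * m2 B (i - a) j x y +
          ∑ a' ∈ Finset.range (i + 1), ∑ a ∈ Finset.range a', ∑ z,
            pk B (a + 1) x z * pk B (a' - a) z z * m2 B (i - a') j z y := by
        rw [Finset.sum_range_succ' (fun a' => ∑ a ∈ Finset.range a', ∑ z,
          pk B a x z * pk B (a' - a) z z * m2 B (i + 1 - a') j z y), Finset.range_zero,
          Finset.sum_empty, add_zero, ← Finset.sum_add_distrib]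
        refine Finset.sum_congr rfl fun a' _ => ?_
        rw [Finset.sum_range_succ' (fun a => ∑ z,
          pk B a x z * pk B (a' + 1 - a) z z * m2 B (i + 1 - (a' + 1)) j z y), add_comm]
        congr 1
        · have h5 := W2_delta (B := B) x
            (fun z => pk B (a' + 1) z z * m2 B (i - a') j z y)
          refine Eq.trans ?_ h5
          refine Finset.sum_congr rfl fun z _ => ?_
          rw [Nat.add_sub_add_right, Nat.sub_zero, mul_assoc]
        · refine Finset.sum_congr rfl fun a _ => Finset.sum_congr rfl fun z _ => ?_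
          rw [Nat.add_sub_add_right, Nat.add_sub_add_right]
      have f5 : ∑ a ∈ Finset.range (i + 1), ∑ b ∈ Finset.range (j + 1), ∑ z,
          pk B a x z * pk B b y z * m2 B (i + 1 - a) (j - b) z z =
          ∑ b ∈ Finset.range (j + 1), pk B b y x * m2 B (i + 1) (j - b) x x +
          ∑ a ∈ Finset.range i, ∑ b ∈ Finset.range (j + 1), ∑ z,
            pk B (a + 1) x z * pk B b y z * m2 B (i - a) (j - b) z z := by
        rw [Finset.sum_range_succ' (fun a => ∑ b ∈ Finset.range (j + 1), ∑ z,
          pk B a x z * pk B b y z * m2 B (i + 1 - a) (j - b) z z), add_comm]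
        congr 1
        · refine Finset.sum_congr rfl fun b _ => ?_
          have h5 := W2_delta (B := B) x
            (fun z => pk B b y z * m2 B (i + 1) (j - b) z z)
          refine Eq.trans ?_ h5
          refine Finset.sum_congr rfl fun z _ => ?_
          rw [Nat.sub_zero, mul_assoc]
        · refine Finset.sum_congr rfl fun a _ => Finset.sum_congr rfl fun b _ =>
            Finset.sum_congr rfl fun z _ => ?_
          rw [Nat.add_sub_add_right]
      have e6 : ∑ v, kerW B x v *
          (mt B i j ((insert x S : Finset V) : Set V) v y +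
            ∑ a ∈ Finset.range (i + 1), ∑ z ∈ insert x S, pk B a v z * m2 B (i - a) j z y +
            ∑ b ∈ Finset.range (j + 1), ∑ z ∈ insert x S, pk B b y z * m2 B i (j - b) v z +
            ∑ a' ∈ Finset.range (i + 1), ∑ a ∈ Finset.range a', ∑ z,
              pk B a v z * pk B (a' - a) z z * m2 B (i - a') j z y +
            ∑ b' ∈ Finset.range (j + 1), ∑ b ∈ Finset.range b', ∑ z,
              pk B b y z * pk B (b' - b) z z * m2 B i (j - b') v z +
            ∑ a ∈ Finset.range i, ∑ b ∈ Finset.range (j + 1), ∑ z,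
              pk B a v z * pk B b y z * m2 B (i - a) (j - b) z z) =
          ∑ v, kerW B x v * mt B i j ((insert x S : Finset V) : Set V) v y +
          ∑ v, kerW B x v * ∑ a ∈ Finset.range (i + 1), ∑ z ∈ insert x S,
            pk B a v z * m2 B (i - a) j z y +
          ∑ v, kerW B x v * ∑ b ∈ Finset.range (j + 1), ∑ z ∈ insert x S,
            pk B b y z * m2 B i (j - b) v z +
          ∑ v, kerW B x v * ∑ a' ∈ Finset.range (i + 1), ∑ a ∈ Finset.range a', ∑ z,
            pk B a v z * pk B (a' - a) z z * m2 B (i - a') j z y +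
          ∑ v, kerW B x v * ∑ b' ∈ Finset.range (j + 1), ∑ b ∈ Finset.range b', ∑ z,
            pk B b y z * pk B (b' - b) z z * m2 B i (j - b') v z +
          ∑ v, kerW B x v * ∑ a ∈ Finset.range i, ∑ b ∈ Finset.range (j + 1), ∑ z,
            pk B a v z * pk B b y z * m2 B (i - a) (j - b) z z := by
        rw [← Finset.sum_add_distrib, ← Finset.sum_add_distrib, ← Finset.sum_add_distrib,
          ← Finset.sum_add_distrib, ← Finset.sum_add_distrib]
        exact Finset.sum_congr rfl fun v _ => by ring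
      rw [e6, e1, e2, e3, e4, e5] at hle
      rw [hmt, f3, f5]
      linarith

end EA42
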