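import Pool.Agent.Lib.MP_ea42c6_pr.Four.W2

/-!
# W3 — sum over the starting points

`mt_lower` with `S = ∅`, summed over `x`, `y`.  `pk_col_ge`: `∑ x, pk i x w = ∑ x, (|B w|/|B x|) pk i w x ≥ 1/κ`;
`∑ x y, m2 i j x y = ∑ w, (∑ x, pk i x w)(∑ y, pk j y w) ≥ n/κ²`.  Third sum: `∑ x, pk a x z ≤ κ` (`pk_col`),
`∑ y, m2 (i-a') j z y = ∑ w, pk (i-a') z w (∑ y, pk j y w) ≤ κ`: at most `κ² tr (a'-a)`.  Fourth: the same.  Fifth:
`≤ κ² ∑ z, m2 (i-a) (j-b) z z` and `pk (j-b) z w ≤ κ pk (j-b) w z` (`pk_rev`), so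
`m2 p q z z ≤ κ pk (p+q) z z`: at most `κ³ tr (i-a+(j-b))`.
-/

namespace EA42

open scoped Classical

variable {V : Type*} [Fintype V] {B : V → Finset V}

theorem pk_col_ge {D κ : ℝ} (h : DReg B D κ) (hκ : 1 ≤ κ) (i : ℕ) (w : V) :
    1 / κ ≤ ∑ x, pk B i x w := by
  have hκ0 : 0 < κ := by linarith
  have hD := h.pos
  have h1 : ∀ x, 1 / κ * pk B i w x ≤ pk B i x w := by
    intro x
    have hx : 0 < ((B x).card : ℝ) := hD.trans_le (h.lo x)
    have h2 := pk_rev h.sym i x w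
    have h3 : ((B x).card : ℝ) ≤ κ * ((B w).card : ℝ) :=
      (h.hi x).trans (mul_le_mul_of_nonneg_left (h.lo w) hκ0.le)
    have h4 := pk_nonneg (B := B) i w x
    rw [one_div, inv_mul_le_iff₀ hκ0]
    have h5 : ((B x).card : ℝ) * pk B i w x ≤ ((B x).card : ℝ) * (κ * pk B i x w) := by
      calc ((B x).card : ℝ) * pk B i w x ≤ κ * ((B w).card : ℝ) * pk B i w x :=
            mul_le_mul_of_nonneg_right h3 h4
        _ = κ * (((B w).card : ℝ) * pk B i w x) := by ring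
        _ = κ * (((B x).card : ℝ) * pk B i x w) := by rw [h2]
        _ = ((B x).card : ℝ) * (κ * pk B i x w) := by ring
    exact le_of_mul_le_mul_left h5 hx
  calc 1 / κ = ∑ x, 1 / κ * pk B i w x := by
        rw [← Finset.mul_sum, pk_sum h.sym.self, mul_one]
    _ ≤ ∑ x, pk B i x w := Finset.sum_le_sum fun x _ => h1 x

private theorem W3_rev {D κ : ℝ} (h : DReg B D κ) (q : ℕ) (z w : V) :
    pk B q z w ≤ κ * pk B q w z := by
  have hD := h.pos
  have hz : 0 < ((B z).card : ℝ) := hD.trans_le (h.lo z)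
  have hκ0 : 0 ≤ κ := by
    by_contra hc
    push Not at hc
    have h1 := (h.lo z).trans (h.hi z)
    nlinarith
  have h2 := pk_rev h.sym q z w
  have h3 : ((B w).card : ℝ) ≤ κ * ((B z).card : ℝ) :=
    (h.hi w).trans (mul_le_mul_of_nonneg_left (h.lo z) hκ0)
  have h4 := pk_nonneg (B := B) q w z
  have h5 : ((B z).card : ℝ) * pk B q z w ≤ ((B z).card : ℝ) * (κ * pk B q w z) := by
    calc ((B z).card : ℝ) * pk B q z w = ((B w).card : ℝ) * pk B q w z := h2
      _ ≤ κ * ((B z).card : ℝ) * pk B q w z := mul_le_mul_of_nonneg_right h3 h4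
      _ = ((B z).card : ℝ) * (κ * pk B q w z) := by ring
  exact le_of_mul_le_mul_left h5 hz

theorem m2_diag {D κ : ℝ} (h : DReg B D κ) (p q : ℕ) (z : V) :
    m2 B p q z z ≤ κ * pk B (p + q) z z := by
  unfold m2
  rw [pk_add, Finset.mul_sum]
  refine Finset.sum_le_sum fun w _ => ?_
  calc pk B p z w * pk B q z w ≤ pk B p z w * (κ * pk B q w z) :=
        mul_le_mul_of_nonneg_left (W3_rev h q z w) (pk_nonneg _ _ _)
    _ = κ * (pk B p z w * pk B q w z) := by ring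

private theorem W3_left {D κ : ℝ} (h : DReg B D κ) (p q : ℕ) (z : V) :
    ∑ x, m2 B p q x z ≤ κ := by
  unfold m2
  rw [Finset.sum_comm]
  calc ∑ w, ∑ x, pk B p x w * pk B q z w = ∑ w, (∑ x, pk B p x w) * pk B q z w :=
        Finset.sum_congr rfl fun w _ => (Finset.sum_mul _ _ _).symm
    _ ≤ ∑ w, κ * pk B q z w := Finset.sum_le_sum fun w _ =>
        mul_le_mul_of_nonneg_right (pk_col h p w) (pk_nonneg _ _ _)
    _ = κ := by rw [← Finset.mul_sum, pk_sum h.sym.self, mul_one]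

private theorem W3_right {D κ : ℝ} (h : DReg B D κ) (p q : ℕ) (z : V) :
    ∑ y, m2 B p q z y ≤ κ := by
  have h1 : ∀ y, m2 B p q z y = m2 B q p y z := by
    intro y
    unfold m2
    exact Finset.sum_congr rfl fun w _ => mul_comm _ _
  rw [Finset.sum_congr rfl fun y _ => h1 y]
  exact W3_left h q p z

private theorem W3_swap {s : Finset ℕ} {t : ℕ → Finset ℕ} (G : ℕ → ℕ → V → V → ℝ) :
    ∑ x, ∑ y, ∑ a' ∈ s, ∑ a ∈ t a', G a' a x y =
      ∑ a' ∈ s, ∑ a ∈ t a', ∑ x, ∑ y, G a' a x y := by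
  have h1 : ∀ x, ∑ y, ∑ a' ∈ s, ∑ a ∈ t a', G a' a x y =
      ∑ a' ∈ s, ∑ a ∈ t a', ∑ y, G a' a x y := by
    intro x
    rw [Finset.sum_comm]
    exact Finset.sum_congr rfl fun a' _ => Finset.sum_comm
  rw [Finset.sum_congr rfl fun x _ => h1 x, Finset.sum_comm]
  exact Finset.sum_congr rfl fun a' _ => Finset.sum_comm

private theorem W3_fact (f g : V → V → ℝ) (c : V → ℝ) :
    ∑ x, ∑ y, ∑ z, f x z * c z * g y z = ∑ z, (∑ x, f x z) * c z * ∑ y, g y z := by
  have h1 : ∀ x, ∑ y, ∑ z, f x z * c z * g y z = ∑ z, f x z * c z * ∑ y, g y z := by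
    intro x
    rw [Finset.sum_comm]
    exact Finset.sum_congr rfl fun z _ => (Finset.mul_sum _ _ _).symm
  rw [Finset.sum_congr rfl fun x _ => h1 x, Finset.sum_comm]
  refine Finset.sum_congr rfl fun z _ => ?_
  rw [Finset.sum_mul, Finset.sum_mul]

private theorem W3_bound {κ : ℝ} (hκ : 0 ≤ κ) (f g : V → V → ℝ) (c : V → ℝ) (hc : ∀ z, 0 ≤ c z)
    (hg0 : ∀ y z, 0 ≤ g y z) (hf : ∀ z, ∑ x, f x z ≤ κ) (hg : ∀ z, ∑ y, g y z ≤ κ) :
    ∑ x, ∑ y, ∑ z, f x z * c z * g y z ≤ κ ^ 2 * ∑ z, c z := by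
  rw [W3_fact, Finset.mul_sum]
  refine Finset.sum_le_sum fun z _ => ?_
  have h1 : (∑ x, f x z) * c z ≤ κ * c z := mul_le_mul_of_nonneg_right (hf z) (hc z)
  calc (∑ x, f x z) * c z * ∑ y, g y z ≤ κ * c z * ∑ y, g y z :=
        mul_le_mul_of_nonneg_right h1 (Finset.sum_nonneg fun y _ => hg0 y z)
    _ ≤ κ * c z * κ := mul_le_mul_of_nonneg_left (hg z) (mul_nonneg hκ (hc z))
    _ = κ ^ 2 * c z := by ring

theorem mt_sum {D κ : ℝ} (h : DReg B D κ) (hκ : 1 ≤ κ) (i j : ℕ) :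
    (Fintype.card V : ℝ) / κ ^ 2 ≤ ∑ x, ∑ y, mt B i j ∅ x y +
      κ ^ 2 * (∑ a' ∈ Finset.range (i + 1), ∑ a ∈ Finset.range a', tr B (a' - a)) +
      κ ^ 2 * (∑ b' ∈ Finset.range (j + 1), ∑ b ∈ Finset.range b', tr B (b' - b)) +
      κ ^ 3 * (∑ a ∈ Finset.range i, ∑ b ∈ Finset.range (j + 1),
        tr B (i - a + (j - b))) := by
  have hκ0 : 0 < κ := by linarith
  have hm2 : ∀ p q x y, 0 ≤ m2 B p q x y := fun p q x y =>
    Finset.sum_nonneg fun w _ => mul_nonneg (pk_nonneg _ _ _) (pk_nonneg _ _ _)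
  -- lower bound of the total
  have hlow : (Fintype.card V : ℝ) / κ ^ 2 ≤ ∑ x, ∑ y, m2 B i j x y := by
    have h1 : ∑ x, ∑ y, m2 B i j x y = ∑ w, (∑ x, pk B i x w) * ∑ y, pk B j y w := by
      have h2 := W3_fact (fun x z => pk B i x z) (fun y z => pk B j y z) (fun _ : V => (1 : ℝ))
      unfold m2
      have h3 : ∀ x y, ∑ w, pk B i x w * pk B j y w =
          ∑ w, pk B i x w * 1 * pk B j y w := fun x y =>
        Finset.sum_congr rfl fun w _ => by rw [mul_one]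
      rw [Finset.sum_congr rfl fun x _ => Finset.sum_congr rfl fun y _ => h3 x y, h2]
      exact Finset.sum_congr rfl fun w _ => by rw [mul_one]
    rw [h1]
    have h4 : (Fintype.card V : ℝ) / κ ^ 2 = ∑ _w : V, 1 / κ * (1 / κ) := by
      rw [Finset.sum_const, Finset.card_univ, nsmul_eq_mul]
      field_simp
    rw [h4]
    refine Finset.sum_le_sum fun w _ => ?_
    exact mul_le_mul (pk_col_ge h hκ i w) (pk_col_ge h hκ j w) (by positivity)
      (Finset.sum_nonneg fun x _ => pk_nonneg _ _ _)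
  -- the bound for each pair
  have hpt : ∀ x y, m2 B i j x y ≤ mt B i j ∅ x y +
      (∑ a' ∈ Finset.range (i + 1), ∑ a ∈ Finset.range a', ∑ z,
        pk B a x z * pk B (a' - a) z z * m2 B (i - a') j z y) +
      (∑ b' ∈ Finset.range (j + 1), ∑ b ∈ Finset.range b', ∑ z,
        pk B b y z * pk B (b' - b) z z * m2 B i (j - b') x z) +
      ∑ a ∈ Finset.range i, ∑ b ∈ Finset.range (j + 1), ∑ z,
        pk B a x z * pk B b y z * m2 B (i - a) (j - b) z z := by
    intro x y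
    have h1 := mt_lower (B := B) i j ∅ x y
    simp only [Finset.sum_empty, Finset.sum_const_zero, add_zero, Finset.coe_empty] at h1
    exact h1
  have hsum : ∑ x, ∑ y, m2 B i j x y ≤ ∑ x, ∑ y, mt B i j ∅ x y +
      (∑ x, ∑ y, ∑ a' ∈ Finset.range (i + 1), ∑ a ∈ Finset.range a', ∑ z,
        pk B a x z * pk B (a' - a) z z * m2 B (i - a') j z y) +
      (∑ x, ∑ y, ∑ b' ∈ Finset.range (j + 1), ∑ b ∈ Finset.range b', ∑ z,
        pk B b y z * pk B (b' - b) z z * m2 B i (j - b') x z) +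
      ∑ x, ∑ y, ∑ a ∈ Finset.range i, ∑ b ∈ Finset.range (j + 1), ∑ z,
        pk B a x z * pk B b y z * m2 B (i - a) (j - b) z z := by
    refine (Finset.sum_le_sum fun x _ => Finset.sum_le_sum fun y _ => hpt x y).trans ?_
    simp only [Finset.sum_add_distrib]
    exact le_rfl
  have e3 : (∑ x, ∑ y, ∑ a' ∈ Finset.range (i + 1), ∑ a ∈ Finset.range a', ∑ z,
        pk B a x z * pk B (a' - a) z z * m2 B (i - a') j z y) ≤
      κ ^ 2 * (∑ a' ∈ Finset.range (i + 1), ∑ a ∈ Finset.range a', tr B (a' - a)) := by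
    rw [W3_swap (fun a' a x y => ∑ z, pk B a x z * pk B (a' - a) z z * m2 B (i - a') j z y),
      Finset.mul_sum]
    refine Finset.sum_le_sum fun a' _ => ?_
    rw [Finset.mul_sum]
    refine Finset.sum_le_sum fun a _ => ?_
    exact W3_bound hκ0.le (fun x z => pk B a x z) (fun y z => m2 B (i - a') j z y)
      (fun z => pk B (a' - a) z z) (fun z => pk_nonneg _ _ _) (fun y z => hm2 _ _ _ _)
      (fun z => pk_col h a z) (fun z => W3_right h _ _ z)
  have e4 : (∑ x, ∑ y, ∑ b' ∈ Finset.range (j + 1), ∑ b ∈ Finset.range b', ∑ z,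
        pk B b y z * pk B (b' - b) z z * m2 B i (j - b') x z) ≤
      κ ^ 2 * (∑ b' ∈ Finset.range (j + 1), ∑ b ∈ Finset.range b', tr B (b' - b)) := by
    rw [W3_swap (fun b' b x y => ∑ z, pk B b y z * pk B (b' - b) z z * m2 B i (j - b') x z),
      Finset.mul_sum]
    refine Finset.sum_le_sum fun b' _ => ?_
    rw [Finset.mul_sum]
    refine Finset.sum_le_sum fun b _ => ?_
    rw [Finset.sum_comm]
    exact W3_bound hκ0.le (fun y z => pk B b y z) (fun x z => m2 B i (j - b') x z)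
      (fun z => pk B (b' - b) z z) (fun z => pk_nonneg _ _ _) (fun y z => hm2 _ _ _ _)
      (fun z => pk_col h b z) (fun z => W3_left h _ _ z)
  have e5 : (∑ x, ∑ y, ∑ a ∈ Finset.range i, ∑ b ∈ Finset.range (j + 1), ∑ z,
        pk B a x z * pk B b y z * m2 B (i - a) (j - b) z z) ≤
      κ ^ 3 * (∑ a ∈ Finset.range i, ∑ b ∈ Finset.range (j + 1),
        tr B (i - a + (j - b))) := by
    rw [W3_swap (fun a b x y => ∑ z, pk B a x z * pk B b y z * m2 B (i - a) (j - b) z z),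
      Finset.mul_sum]
    refine Finset.sum_le_sum fun a _ => ?_
    rw [Finset.mul_sum]
    refine Finset.sum_le_sum fun b _ => ?_
    have h1 : ∑ x, ∑ y, ∑ z, pk B a x z * pk B b y z * m2 B (i - a) (j - b) z z =
        ∑ x, ∑ y, ∑ z, pk B a x z * m2 B (i - a) (j - b) z z * pk B b y z :=
      Finset.sum_congr rfl fun x _ => Finset.sum_congr rfl fun y _ =>
        Finset.sum_congr rfl fun z _ => by ring
    rw [h1]
    refine (W3_bound hκ0.le (fun x z => pk B a x z) (fun y z => pk B b y z)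
      (fun z => m2 B (i - a) (j - b) z z) (fun z => hm2 _ _ _ _) (fun y z => pk_nonneg _ _ _)
      (fun z => pk_col h a z) (fun z => pk_col h b z)).trans ?_
    unfold tr
    rw [Finset.mul_sum, Finset.mul_sum]
    refine Finset.sum_le_sum fun z _ => ?_
    calc κ ^ 2 * m2 B (i - a) (j - b) z z ≤ κ ^ 2 * (κ * pk B (i - a + (j - b)) z z) :=
          mul_le_mul_of_nonneg_left (m2_diag h _ _ z) (by positivity)
      _ = κ ^ 3 * pk B (i - a + (j - b)) z z := by ring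
  linarith

end EA42
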