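import Pool.Agent.Lib.MP_ea42c6_pr.Four.W3

/-!
# W4 — sum over the times

`n = |V|`.  `tr m ≤ H (n/(D m) + 1)` for `m ≥ 1` (`hk`).  For `i ≤ t` the sum `∑_{a' ≤ i} ∑_{a < a'} tr (a'-a)` is at most
`t ∑_{m=1}^{t} tr m ≤ t H ((n/D)(1 + log t) + t)` (`harmonic_le_one_add_log`), and
`∑_{a < i} ∑_{b ≤ j} tr (i-a+(j-b)) ≤ ∑_{p=1}^{t} ∑_{q=0}^{t} tr (p+q) ≤ ∑_{m=1}^{2t} m H (n/(D m) + 1)`-type bound:
`∑_{p,q} 1/(p+q) ≤ 2t` (at most `m` pairs have sum `m`) and there are `t (t+1)` pairs: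
`≤ H (2 t n/D + t (t+1))`.  `mt_sum` for every `i, j ≤ t`, summed, with `hsmall` (divided by `n`).
-/

namespace EA42

open scoped Classical

private theorem W4_tr_nonneg {V : Type*} [Fintype V] (B : V → Finset V) (m : ℕ) : 0 ≤ tr B m :=
  Finset.sum_nonneg fun _ _ => pk_nonneg _ _ _

private theorem W4_tr_le {V : Type*} [Fintype V] [Nonempty V] {B : V → Finset V} {D κ H g0 : ℝ}
    (h : HK B D κ H g0) (m : ℕ) :
    tr B (m + 1) ≤ H * ((Fintype.card V : ℝ) / D * (1 / ((m : ℝ) + 1)) + 1) := by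
  have hN : (0 : ℝ) < Fintype.card V := by exact_mod_cast Fintype.card_pos
  have hD := h.reg.pos
  have hm : (0 : ℝ) < (m : ℝ) + 1 := by positivity
  unfold tr
  calc ∑ x, pk B (m + 1) x x
      ≤ ∑ _x : V, H * (1 / (D * ((m + 1 : ℕ) : ℝ)) + 1 / (Fintype.card V : ℝ)) :=
        Finset.sum_le_sum fun x _ => h.hk (m + 1) (Nat.succ_le_succ (Nat.zero_le m)) x x
    _ = H * ((Fintype.card V : ℝ) / D * (1 / ((m : ℝ) + 1)) + 1) := by
        rw [Finset.sum_const, Finset.card_univ, nsmul_eq_mul]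
        push_cast
        field_simp

private theorem W4_harm (t : ℕ) :
    ∑ m ∈ Finset.range t, 1 / ((m : ℝ) + 1) ≤ 1 + Real.log t := by
  have h := harmonic_le_one_add_log t
  have e : ((harmonic t : ℚ) : ℝ) = ∑ m ∈ Finset.range t, 1 / ((m : ℝ) + 1) := by
    unfold harmonic
    rw [Rat.cast_sum]
    refine Finset.sum_congr rfl fun m _ => ?_
    push_cast
    rw [one_div]
  rw [← e]
  exact h

private theorem W4_dbl (t : ℕ) :
    ∑ p ∈ Finset.range t, ∑ q ∈ Finset.range (t + 1), 1 / ((p : ℝ) + 1 + q) ≤ 2 * t := by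
  induction t with
  | zero => simp
  | succ t ih =>
    rw [Finset.sum_range_succ]
    have e1 : ∑ p ∈ Finset.range t, ∑ q ∈ Finset.range (t + 1 + 1), 1 / ((p : ℝ) + 1 + q) =
        ∑ p ∈ Finset.range t, ∑ q ∈ Finset.range (t + 1), 1 / ((p : ℝ) + 1 + q) +
          ∑ p ∈ Finset.range t, 1 / ((p : ℝ) + 1 + ((t + 1 : ℕ) : ℝ)) := by
      rw [← Finset.sum_add_distrib]
      refine Finset.sum_congr rfl fun p _ => ?_
      rw [Finset.sum_range_succ]
    rw [e1]
    have ht : (0 : ℝ) ≤ (t : ℝ) := Nat.cast_nonneg t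
    have b1 : ∑ p ∈ Finset.range t, 1 / ((p : ℝ) + 1 + ((t + 1 : ℕ) : ℝ)) ≤
        t * (1 / ((t : ℝ) + 2)) := by
      calc ∑ p ∈ Finset.range t, 1 / ((p : ℝ) + 1 + ((t + 1 : ℕ) : ℝ))
          ≤ ∑ _p ∈ Finset.range t, 1 / ((t : ℝ) + 2) := by
            refine Finset.sum_le_sum fun p _ => ?_
            refine one_div_le_one_div_of_le (by positivity) ?_
            push_cast
            have : (0 : ℝ) ≤ (p : ℝ) := Nat.cast_nonneg p
            linarith
        _ = t * (1 / ((t : ℝ) + 2)) := by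
            rw [Finset.sum_const, Finset.card_range, nsmul_eq_mul]
    have b2 : ∑ q ∈ Finset.range (t + 1 + 1), 1 / ((t : ℝ) + 1 + q) ≤
        (t + 1) * (1 / ((t : ℝ) + 2)) + 1 / ((t : ℝ) + 1) := by
      rw [Finset.sum_range_succ']
      have b3 : ∑ q ∈ Finset.range (t + 1), 1 / ((t : ℝ) + 1 + ((q + 1 : ℕ) : ℝ)) ≤
          (t + 1) * (1 / ((t : ℝ) + 2)) := by
        calc ∑ q ∈ Finset.range (t + 1), 1 / ((t : ℝ) + 1 + ((q + 1 : ℕ) : ℝ))
            ≤ ∑ _q ∈ Finset.range (t + 1), 1 / ((t : ℝ) + 2) := by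
              refine Finset.sum_le_sum fun q _ => ?_
              refine one_div_le_one_div_of_le (by positivity) ?_
              push_cast
              have : (0 : ℝ) ≤ (q : ℝ) := Nat.cast_nonneg q
              linarith
          _ = (t + 1) * (1 / ((t : ℝ) + 2)) := by
              rw [Finset.sum_const, Finset.card_range, nsmul_eq_mul]
              push_cast
              ring
      have b4 : 1 / ((t : ℝ) + 1 + ((0 : ℕ) : ℝ)) = 1 / ((t : ℝ) + 1) := by
        rw [Nat.cast_zero, add_zero]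
      rw [b4]
      linarith
    have b5 : (t : ℝ) * (1 / ((t : ℝ) + 2)) + ((t + 1) * (1 / ((t : ℝ) + 2)) +
        1 / ((t : ℝ) + 1)) ≤ 2 := by
      have h1 : (0 : ℝ) < (t : ℝ) + 1 := by positivity
      have h2 : (0 : ℝ) < (t : ℝ) + 2 := by positivity
      rw [← sub_nonneg]
      have : 2 - ((t : ℝ) * (1 / ((t : ℝ) + 2)) + ((t + 1) * (1 / ((t : ℝ) + 2)) +
        1 / ((t : ℝ) + 1))) = (2 * t + 1) / (((t : ℝ) + 2) * ((t : ℝ) + 1)) := by
        field_simp
        ring
      rw [this]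
      positivity
    push_cast
    push_cast at b1 b2
    linarith

/-- the first sum -/
private theorem W4_A {V : Type*} [Fintype V] [Nonempty V] {B : V → Finset V} {D κ H g0 : ℝ}
    (h : HK B D κ H g0) (hH : 1 ≤ H) {t i : ℕ} (hi : i ≤ t) :
    ∑ a' ∈ Finset.range (i + 1), ∑ a ∈ Finset.range a', tr B (a' - a) ≤
      t * (H * ((Fintype.card V : ℝ) / D * (1 + Real.log t) + t)) := by
  have hD := h.reg.pos
  have hN : (0 : ℝ) < Fintype.card V := by exact_mod_cast Fintype.card_pos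
  have hT : ∑ m ∈ Finset.range t, tr B (m + 1) ≤
      H * ((Fintype.card V : ℝ) / D * (1 + Real.log t) + t) := by
    calc ∑ m ∈ Finset.range t, tr B (m + 1)
        ≤ ∑ m ∈ Finset.range t, H * ((Fintype.card V : ℝ) / D * (1 / ((m : ℝ) + 1)) + 1) :=
          Finset.sum_le_sum fun m _ => W4_tr_le h m
      _ = H * ((Fintype.card V : ℝ) / D * (∑ m ∈ Finset.range t, 1 / ((m : ℝ) + 1)) + t) := by
          rw [← Finset.mul_sum, Finset.sum_add_distrib, ← Finset.mul_sum, Finset.sum_const,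
            Finset.card_range, nsmul_eq_mul, mul_one]
      _ ≤ _ := by
          have h1 := W4_harm t
          have h2 : (Fintype.card V : ℝ) / D * (∑ m ∈ Finset.range t, 1 / ((m : ℝ) + 1)) ≤
              (Fintype.card V : ℝ) / D * (1 + Real.log t) :=
            mul_le_mul_of_nonneg_left h1 (by positivity)
          exact mul_le_mul_of_nonneg_left (by linarith) (by linarith)
  have hT0 : 0 ≤ ∑ m ∈ Finset.range t, tr B (m + 1) :=
    Finset.sum_nonneg fun m _ => W4_tr_nonneg B _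
  have hin : ∀ a' ∈ Finset.range i, ∑ a ∈ Finset.range (a' + 1), tr B (a' + 1 - a) ≤
      ∑ m ∈ Finset.range t, tr B (m + 1) := by
    intro a' ha'
    have ha := Finset.mem_range.1 ha'
    have e : ∑ a ∈ Finset.range (a' + 1), tr B (a' + 1 - a) =
        ∑ m ∈ Finset.range (a' + 1), tr B (m + 1) := by
      rw [← Finset.sum_range_reflect (fun m => tr B (m + 1)) (a' + 1)]
      refine Finset.sum_congr rfl fun a hx => ?_
      have := Finset.mem_range.1 hx
      show tr B (a' + 1 - a) = tr B (a' + 1 - 1 - a + 1)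
      congr 1
      omega
    rw [e]
    exact Finset.sum_le_sum_of_subset_of_nonneg
      (fun x hx => Finset.mem_range.2 (by have := Finset.mem_range.1 hx; omega))
      (fun m _ _ => W4_tr_nonneg B _)
  rw [Finset.sum_range_succ']
  have e0 : ∑ a ∈ Finset.range 0, tr B (0 - a) = 0 := by simp
  rw [e0, add_zero]
  calc ∑ a' ∈ Finset.range i, ∑ a ∈ Finset.range (a' + 1), tr B (a' + 1 - a)
      ≤ ∑ _a' ∈ Finset.range i, ∑ m ∈ Finset.range t, tr B (m + 1) := Finset.sum_le_sum hin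
    _ = (i : ℝ) * ∑ m ∈ Finset.range t, tr B (m + 1) := by
        rw [Finset.sum_const, Finset.card_range, nsmul_eq_mul]
    _ ≤ (t : ℝ) * ∑ m ∈ Finset.range t, tr B (m + 1) :=
        mul_le_mul_of_nonneg_right (by exact_mod_cast hi) hT0
    _ ≤ _ := mul_le_mul_of_nonneg_left hT (Nat.cast_nonneg t)

/-- the second sum -/
private theorem W4_C {V : Type*} [Fintype V] [Nonempty V] {B : V → Finset V} {D κ H g0 : ℝ}
    (h : HK B D κ H g0) (hH : 1 ≤ H) {t i j : ℕ} (hi : i ≤ t) (hj : j ≤ t) :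
    ∑ a ∈ Finset.range i, ∑ b ∈ Finset.range (j + 1), tr B (i - a + (j - b)) ≤
      H * ((Fintype.card V : ℝ) / D * (2 * t) + t * ((t : ℝ) + 1)) := by
  have hD := h.reg.pos
  have hN : (0 : ℝ) < Fintype.card V := by exact_mod_cast Fintype.card_pos
  have e1 : ∑ a ∈ Finset.range i, ∑ b ∈ Finset.range (j + 1), tr B (i - a + (j - b)) =
      ∑ p ∈ Finset.range i, ∑ q ∈ Finset.range (j + 1), tr B (p + q + 1) := by
    rw [← Finset.sum_range_reflect (fun p => ∑ q ∈ Finset.range (j + 1), tr B (p + q + 1)) i]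
    refine Finset.sum_congr rfl fun a ha => ?_
    have ha' := Finset.mem_range.1 ha
    show ∑ b ∈ Finset.range (j + 1), tr B (i - a + (j - b)) =
      ∑ q ∈ Finset.range (j + 1), tr B (i - 1 - a + q + 1)
    rw [← Finset.sum_range_reflect (fun q => tr B (i - 1 - a + q + 1)) (j + 1)]
    refine Finset.sum_congr rfl fun b hb => ?_
    have hb' := Finset.mem_range.1 hb
    show tr B (i - a + (j - b)) = tr B (i - 1 - a + (j + 1 - 1 - b) + 1)
    congr 1
    omega
  rw [e1]
  calc ∑ p ∈ Finset.range i, ∑ q ∈ Finset.range (j + 1), tr B (p + q + 1)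
      ≤ ∑ p ∈ Finset.range t, ∑ q ∈ Finset.range (t + 1), tr B (p + q + 1) := by
        refine le_trans (Finset.sum_le_sum fun p _ =>
          Finset.sum_le_sum_of_subset_of_nonneg
            (t := Finset.range (t + 1))
            (fun x hx => Finset.mem_range.2 (by have := Finset.mem_range.1 hx; omega))
            (fun m _ _ => W4_tr_nonneg B _)) ?_
        exact Finset.sum_le_sum_of_subset_of_nonneg
          (fun x hx => Finset.mem_range.2 (by have := Finset.mem_range.1 hx; omega))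
          (fun m _ _ => Finset.sum_nonneg fun _ _ => W4_tr_nonneg B _)
    _ ≤ ∑ p ∈ Finset.range t, ∑ q ∈ Finset.range (t + 1),
          H * ((Fintype.card V : ℝ) / D * (1 / ((p : ℝ) + 1 + q)) + 1) := by
        refine Finset.sum_le_sum fun p _ => Finset.sum_le_sum fun q _ => ?_
        have h1 := W4_tr_le h (p + q)
        have h2 : ((p + q : ℕ) : ℝ) + 1 = (p : ℝ) + 1 + q := by push_cast; ring
        rw [h2] at h1
        exact h1
    _ = H * ((Fintype.card V : ℝ) / D *
          (∑ p ∈ Finset.range t, ∑ q ∈ Finset.range (t + 1), 1 / ((p : ℝ) + 1 + q)) +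
            t * ((t : ℝ) + 1)) := by
        have e2 : ∀ p : ℕ, ∑ q ∈ Finset.range (t + 1),
            H * ((Fintype.card V : ℝ) / D * (1 / ((p : ℝ) + 1 + q)) + 1) =
            H * ((Fintype.card V : ℝ) / D *
              (∑ q ∈ Finset.range (t + 1), 1 / ((p : ℝ) + 1 + q)) + ((t : ℝ) + 1)) := by
          intro p
          rw [← Finset.mul_sum, Finset.sum_add_distrib, ← Finset.mul_sum, Finset.sum_const,
            Finset.card_range, nsmul_eq_mul, mul_one]
          push_cast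
          rfl
        rw [Finset.sum_congr rfl fun p _ => e2 p]
        rw [← Finset.mul_sum, Finset.sum_add_distrib, ← Finset.mul_sum, Finset.sum_const,
          Finset.card_range, nsmul_eq_mul]
    _ ≤ _ := by
        have h1 := W4_dbl t
        have h2 : (Fintype.card V : ℝ) / D *
            (∑ p ∈ Finset.range t, ∑ q ∈ Finset.range (t + 1), 1 / ((p : ℝ) + 1 + q)) ≤
            (Fintype.card V : ℝ) / D * (2 * t) :=
          mul_le_mul_of_nonneg_left h1 (by positivity)
        exact mul_le_mul_of_nonneg_left (by linarith) (by linarith)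

theorem mt_total {V : Type*} [Fintype V] [Nonempty V] {B : V → Finset V} {D κ H g0 : ℝ}
    (h : HK B D κ H g0) (hκ : 1 ≤ κ) (hH : 1 ≤ H) {t : ℕ} (ht : 1 ≤ t)
    (hsmall : 2 * κ ^ 2 * H * (t * ((1 + Real.log t) / D + t / (Fintype.card V : ℝ))) +
      κ ^ 3 * H * (2 * t / D + t * ((t : ℝ) + 1) / (Fintype.card V : ℝ)) ≤
        1 / (2 * κ ^ 2)) :
    ((t : ℝ) + 1) ^ 2 * (Fintype.card V : ℝ) / (2 * κ ^ 2) ≤
      ∑ i ∈ Finset.range (t + 1), ∑ j ∈ Finset.range (t + 1), ∑ x, ∑ y, mt B i j ∅ x y := by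
  have hD := h.reg.pos
  have hN : (0 : ℝ) < Fintype.card V := by exact_mod_cast Fintype.card_pos
  have hκ0 : 0 < κ := lt_of_lt_of_le one_pos hκ
  set N : ℝ := (Fintype.card V : ℝ) with hNdef
  have hterm : ∀ i ∈ Finset.range (t + 1), ∀ j ∈ Finset.range (t + 1),
      N / (2 * κ ^ 2) ≤ ∑ x, ∑ y, mt B i j ∅ x y := by
    intro i hi j hj
    have hi' : i ≤ t := Nat.lt_succ_iff.1 (Finset.mem_range.1 hi)
    have hj' : j ≤ t := Nat.lt_succ_iff.1 (Finset.mem_range.1 hj)
    have h1 := mt_sum h.reg hκ i j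
    have h2 := W4_A h hH hi'
    have h3 := W4_A h hH hj'
    have h4 := W4_C h hH hi' hj'
    rw [← hNdef] at h1 h2 h3 h4
    have h2' := mul_le_mul_of_nonneg_left h2 (sq_nonneg κ)
    have h3' := mul_le_mul_of_nonneg_left h3 (sq_nonneg κ)
    have h4' := mul_le_mul_of_nonneg_left h4 (pow_nonneg hκ0.le 3)
    have h5 := mul_le_mul_of_nonneg_left hsmall hN.le
    have e5 : N * (2 * κ ^ 2 * H * (t * ((1 + Real.log t) / D + t / N)) +
        κ ^ 3 * H * (2 * t / D + t * ((t : ℝ) + 1) / N)) =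
        κ ^ 2 * (t * (H * (N / D * (1 + Real.log t) + t))) +
        κ ^ 2 * (t * (H * (N / D * (1 + Real.log t) + t))) +
        κ ^ 3 * (H * (N / D * (2 * t) + t * ((t : ℝ) + 1))) := by
      field_simp
      ring
    rw [e5] at h5
    have e6 : N / κ ^ 2 = N * (1 / (2 * κ ^ 2)) + N / (2 * κ ^ 2) := by
      field_simp
      ring
    rw [e6] at h1
    linarith
  calc ((t : ℝ) + 1) ^ 2 * N / (2 * κ ^ 2)
      = ∑ _i ∈ Finset.range (t + 1), ∑ _j ∈ Finset.range (t + 1), N / (2 * κ ^ 2) := by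
        rw [Finset.sum_const, Finset.sum_const, Finset.card_range, nsmul_eq_mul, nsmul_eq_mul]
        push_cast
        ring
    _ ≤ _ := Finset.sum_le_sum fun i hi => Finset.sum_le_sum fun j hj => hterm i hi j hj

end EA42
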