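import Pool.Agent.Lib.MP_ea42c6_pr.Four.Defs

/-!
# W5 — at most two first meetings (deterministic)

Let `(i, j)` and `(i', j')` satisfy `ME` with `(i, j) ≠ (i', j')`.  `i = i'` gives `f^[j] y = f^[j'] y`, so `j = j'` by
`OrbInj f y (max j j')`.  If `i < i'` then `j > j'` (the condition of `(i', j')` with `a = i`).
Suppose there were three: `i₁ < i₂ < i₃`, `j₁ > j₂ > j₃`.  `f^[j₁] y = f^[j₁-j₂] (f^[i₂] x)`, so
`f^[i₁] x = f^[i₂ + j₁ - j₂] x`: `p = f^[i₁] x` is periodic, and `L₁ = i₂ - i₁ + j₁ - j₂` is a period; let `L` be the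
least period of `p` (`Function.minimalPeriod`), `L ∣ L₁`.  In the same way `L₂ = i₃ - i₂ + j₂ - j₃` is a period of
`f^[i₂] x`, which is on the same cycle: `L ∣ L₂`.  So `i₃ - i₁ + j₁ - j₃ = L₁ + L₂ ≥ 2 L`.  But the points
`f^[i₁] x, ..., f^[i₃] x` are distinct and on the cycle, so `i₃ - i₁ < L`; `f^[j₃] y = f^[i₃] x` is on the cycle
and `f^[j₃] y, ..., f^[j₁] y` are distinct: `j₁ - j₃ < L`.  Contradiction.
-/

namespace EA42

open scoped Classical

private theorem W5_cmp {V : Type*} {f : V → V} {x y : V} {i j i' j' : ℕ} (h : ME f i j x y)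
    (h' : ME f i' j' x y) (hi : i < i') : j' < j := by
  by_contra hj
  push Not at hj
  exact h'.2.2.2 i hi j hj h.2.2.1

private theorem W5_eq {V : Type*} {f : V → V} {x y : V} {i j j' : ℕ} (h : ME f i j x y)
    (h' : ME f i j' x y) : j = j' := by
  have h1 : f^[j] y = f^[j'] y := h.2.2.1.symm.trans h'.2.2.1
  rcases le_total j j' with hj | hj
  · exact h'.2.1 j hj j' le_rfl h1
  · exact h.2.1 j le_rfl j' hj h1

private theorem W5_three {V : Type*} {f : V → V} {x y : V} {i1 i2 i3 j1 j2 j3 : ℕ}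
    (h1 : ME f i1 j1 x y) (h2 : ME f i2 j2 x y) (h3 : ME f i3 j3 x y) (h12 : i1 < i2) (h23 : i2 < i3) :
    False := by
  have hj12 := W5_cmp h1 h2 h12
  have hj23 := W5_cmp h2 h3 h23
  have it : ∀ (a b : ℕ) (z : V), a ≤ b → f^[b] z = f^[b - a] (f^[a] z) := by
    intro a b z hab
    rw [← Function.iterate_add_apply, Nat.sub_add_cancel hab]
  have per : ∀ {i j i' j' : ℕ}, ME f i j x y → ME f i' j' x y → i < i' → j' < j →
      Function.IsPeriodicPt f ((j - j') + (i' - i)) (f^[i] x) := by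
    intro i j i' j' h h' hi hj
    show f^[(j - j') + (i' - i)] (f^[i] x) = f^[i] x
    rw [Function.iterate_add_apply, ← it i i' x hi.le, h'.2.2.1, ← it j' j y hj.le]
    exact h.2.2.1.symm
  have p1 := per h1 h2 h12 hj12
  have p2 := per h2 h3 h23 hj23
  have hpp : f^[i1] x ∈ Function.periodicPts f := Function.mk_mem_periodicPts (by omega) p1
  have hLpos : 0 < Function.minimalPeriod f (f^[i1] x) := Function.minimalPeriod_pos_of_mem_periodicPts hpp
  have d1 := p1.minimalPeriod_dvd
  have d2 := p2.minimalPeriod_dvd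
  have e2 : Function.minimalPeriod f (f^[i2] x) = Function.minimalPeriod f (f^[i1] x) := by
    rw [it i1 i2 x h12.le]
    exact Function.minimalPeriod_apply_iterate hpp _
  have e3 : Function.minimalPeriod f (f^[i3] x) = Function.minimalPeriod f (f^[i1] x) := by
    rw [it i1 i3 x (h12.trans h23).le]
    exact Function.minimalPeriod_apply_iterate hpp _
  rw [e2] at d2
  set L := Function.minimalPeriod f (f^[i1] x) with hL
  have l1 : L ≤ (j1 - j2) + (i2 - i1) := Nat.le_of_dvd (by omega) d1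
  have l2 : L ≤ (j2 - j3) + (i3 - i2) := Nat.le_of_dvd (by omega) d2
  have b1 : i3 < i1 + L := by
    by_contra hc
    push Not at hc
    have h5 : f^[i1 + L] x = f^[i1] x := by
      rw [add_comm, Function.iterate_add_apply]
      exact Function.isPeriodicPt_minimalPeriod f (f^[i1] x)
    have h6 := h3.1 (i1 + L) hc i1 (by omega) h5
    omega
  have b2 : j1 < j3 + L := by
    by_contra hc
    push Not at hc
    have h5 : f^[j3 + L] y = f^[j3] y := by
      rw [add_comm, Function.iterate_add_apply, ← h3.2.2.1, ← e3]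
      exact Function.isPeriodicPt_minimalPeriod f (f^[i3] x)
    have h6 := h1.2.1 (j3 + L) hc j3 (by omega) h5
    omega
  omega

theorem me_two {V : Type*} (f : V → V) (x y : V) (t : ℕ) :
    ((Finset.range (t + 1) ×ˢ Finset.range (t + 1)).filter
      fun p : ℕ × ℕ => ME f p.1 p.2 x y).card ≤ 2 := by
  by_contra hc
  push Not at hc
  obtain ⟨⟨a, a'⟩, ha, ⟨b, b'⟩, hb, ⟨c, c'⟩, hcm, hab, hac, hbc⟩ := Finset.two_lt_card.1 hc
  have h1 : ME f a a' x y := (Finset.mem_filter.1 ha).2
  have h2 : ME f b b' x y := (Finset.mem_filter.1 hb).2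
  have h3 : ME f c c' x y := (Finset.mem_filter.1 hcm).2
  have key : ∀ {i j i' j' : ℕ}, ME f i j x y → ME f i' j' x y → (i, j) ≠ (i', j') → i ≠ i' := by
    rintro i j i' j' h h' hne rfl
    exact hne (by rw [W5_eq h h'])
  have n1 := key h1 h2 hab
  have n2 := key h1 h3 hac
  have n3 := key h2 h3 hbc
  rcases lt_or_gt_of_ne n1 with h12 | h12 <;> rcases lt_or_gt_of_ne n2 with h13 | h13 <;>
    rcases lt_or_gt_of_ne n3 with h23 | h23
  · exact W5_three h1 h2 h3 h12 h23
  · exact W5_three h1 h3 h2 h13 h23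
  · omega
  · exact W5_three h3 h1 h2 h13 h12
  · exact W5_three h2 h1 h3 h12 h13
  · omega
  · exact W5_three h2 h3 h1 h23 h13
  · exact W5_three h3 h2 h1 h23 h12

end EA42
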