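import Pool.Agent.Lib.MP_ea42c6_pr.Four.W1
import Pool.Agent.Lib.MP_ea42c6_pr.Four.W4
import Pool.Agent.Lib.MP_ea42c6_pr.Four.W5

/-!
# W6 — two random vertices meet

`∑_{i,j ≤ t} mt i j ∅ x y ≤ ∑_{i,j ≤ t} pr {ME f i j x y} = ∑ f, w f #{(i,j) | ME} ≤ 2 pr {Meets f t x y}` (`mt_le` with
`S = ∅`, `me_two`; the count is 0 if not `Meets`).  Sum over `x`, `y`, `mt_total`.
-/

namespace EA42

open scoped Classical

private theorem W6_pair {V : Type*} [Fintype V] [DecidableEq V] {B : V → Finset V}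
    (hself : ∀ u, u ∈ B u) (t : ℕ) (x y : V) :
    ∑ i ∈ Finset.range (t + 1), ∑ j ∈ Finset.range (t + 1), mt B i j ∅ x y ≤
      2 * pr (prodW (kerW B)) {f | Meets f t x y} := by
  have hP := isProb_prodW (fun i => isProb_kerW hself i)
  have h1 : ∑ i ∈ Finset.range (t + 1), ∑ j ∈ Finset.range (t + 1), mt B i j ∅ x y ≤
      ∑ i ∈ Finset.range (t + 1), ∑ j ∈ Finset.range (t + 1),
        pr (prodW (kerW B)) {f | ME f i j x y} := by
    refine Finset.sum_le_sum fun i _ => Finset.sum_le_sum fun j _ => ?_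
    refine (mt_le hself i j ∅ x y).trans (pr_mono hP ?_)
    exact fun f hf => hf.1
  have h2 : ∑ i ∈ Finset.range (t + 1), ∑ j ∈ Finset.range (t + 1),
        pr (prodW (kerW B)) {f | ME f i j x y} =
      ∑ f : V → V, ∑ p ∈ Finset.range (t + 1) ×ˢ Finset.range (t + 1),
        (if ME f p.1 p.2 x y then prodW (kerW B) f else 0) := by
    symm
    rw [Finset.sum_comm, Finset.sum_product]
    refine Finset.sum_congr rfl fun i _ => Finset.sum_congr rfl fun j _ => ?_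
    rfl
  have h3 : ∑ f : V → V, ∑ p ∈ Finset.range (t + 1) ×ˢ Finset.range (t + 1),
        (if ME f p.1 p.2 x y then prodW (kerW B) f else 0) ≤
      ∑ f : V → V, 2 * (if f ∈ {f : V → V | Meets f t x y} then prodW (kerW B) f else 0) := by
    refine Finset.sum_le_sum fun f _ => ?_
    rw [← Finset.sum_filter, Finset.sum_const, nsmul_eq_mul]
    have hf := hP.1 f
    by_cases hM : f ∈ {f : V → V | Meets f t x y}
    · rw [if_pos hM]
      refine mul_le_mul_of_nonneg_right ?_ hf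
      exact_mod_cast me_two f x y t
    · rw [if_neg hM, mul_zero]
      have h4 : ((Finset.range (t + 1) ×ˢ Finset.range (t + 1)).filter
          fun p : ℕ × ℕ => ME f p.1 p.2 x y) = ∅ := by
        rw [Finset.filter_eq_empty_iff]
        intro p hp hme
        rw [Finset.mem_product, Finset.mem_range, Finset.mem_range] at hp
        exact hM ⟨p.1, by omega, p.2, by omega, hme⟩
      rw [h4]
      simp
  refine h1.trans (h2.le.trans (h3.trans (le_of_eq ?_)))
  unfold pr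
  rw [Finset.mul_sum]

theorem meets_sum {V : Type*} [Fintype V] [DecidableEq V] [Nonempty V] {B : V → Finset V}
    {D κ H g0 : ℝ} (h : HK B D κ H g0) (hκ : 1 ≤ κ) (hH : 1 ≤ H) {t : ℕ} (ht : 1 ≤ t)
    (hsmall : 2 * κ ^ 2 * H * (t * ((1 + Real.log t) / D + t / (Fintype.card V : ℝ))) +
      κ ^ 3 * H * (2 * t / D + t * ((t : ℝ) + 1) / (Fintype.card V : ℝ)) ≤
        1 / (2 * κ ^ 2)) :
    ((t : ℝ) + 1) ^ 2 * (Fintype.card V : ℝ) / (4 * κ ^ 2) ≤
      ∑ x, ∑ y, pr (prodW (kerW B)) {f | Meets f t x y} := by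
  have hP := isProb_prodW (fun i => isProb_kerW h.reg.sym.self i)
  have h1 := mt_total h hκ hH ht hsmall
  have h2 : ∑ i ∈ Finset.range (t + 1), ∑ j ∈ Finset.range (t + 1), ∑ x, ∑ y,
      mt B i j ∅ x y = ∑ x, ∑ y, ∑ i ∈ Finset.range (t + 1), ∑ j ∈ Finset.range (t + 1),
        mt B i j ∅ x y :=
    calc ∑ i ∈ Finset.range (t + 1), ∑ j ∈ Finset.range (t + 1), ∑ x, ∑ y, mt B i j ∅ x y
        = ∑ i ∈ Finset.range (t + 1), ∑ x, ∑ j ∈ Finset.range (t + 1), ∑ y, mt B i j ∅ x y :=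
          Finset.sum_congr rfl fun i _ => Finset.sum_comm
      _ = ∑ x, ∑ i ∈ Finset.range (t + 1), ∑ j ∈ Finset.range (t + 1), ∑ y, mt B i j ∅ x y :=
          Finset.sum_comm
      _ = ∑ x, ∑ i ∈ Finset.range (t + 1), ∑ y, ∑ j ∈ Finset.range (t + 1), mt B i j ∅ x y :=
          Finset.sum_congr rfl fun x _ => Finset.sum_congr rfl fun i _ => Finset.sum_comm
      _ = ∑ x, ∑ y, ∑ i ∈ Finset.range (t + 1), ∑ j ∈ Finset.range (t + 1), mt B i j ∅ x y :=
          Finset.sum_congr rfl fun x _ => Finset.sum_comm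
  have h3 : ∑ x, ∑ y, ∑ i ∈ Finset.range (t + 1), ∑ j ∈ Finset.range (t + 1),
      mt B i j ∅ x y ≤ ∑ x, ∑ y, 2 * pr (prodW (kerW B)) {f | Meets f t x y} :=
    Finset.sum_le_sum fun x _ => Finset.sum_le_sum fun y _ => W6_pair h.reg.sym.self t x y
  have h4 : ∑ x, ∑ y, 2 * pr (prodW (kerW B)) {f | Meets f t x y} =
      2 * ∑ x, ∑ y, pr (prodW (kerW B)) {f | Meets f t x y} := by
    rw [Finset.mul_sum]
    exact Finset.sum_congr rfl fun x _ => (Finset.mul_sum _ _ _).symm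
  have h5 : ((t : ℝ) + 1) ^ 2 * (Fintype.card V : ℝ) / (4 * κ ^ 2) =
      ((t : ℝ) + 1) ^ 2 * (Fintype.card V : ℝ) / (2 * κ ^ 2) / 2 := by
    rw [div_div]
    congr 1
    ring
  rw [h5]
  linarith

end EA42
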