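import Pool.Agent.Lib.MP_ea42c6_pr.Four.Defs
import Pool.Agent.Lib.MP_ea42c6_pr.Three.U21
import Pool.Agent.Lib.MP_ea42c6_pr.One.N1
import Pool.Agent.Lib.MP_ea42c6_pr.One.N9

/-!
# W7 — exploring two more orbits

`S = orbS f u = {z | ∃ i a, f^[a] (u i) = z}`, closed under `f`.
`dist_det`: let `h = pw S f g` with `S = orbS f u` (so `h = f` on `S`).  If `Dist h (cons x (cons y u))` then
`¬ Meets g t x y`: let `ME g i j x y`.  If the `g`-orbit of `x` up to `i` or of `y` up to `j` meets `S`, then the
`h`-orbit agrees with it until the first visit to `S`, so `x` (or `y`) is reachable from some `f^[a] (u i')`,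
hence from `u i'` (`h = f` on `S`; consecutive points of an `h`-orbit are adjacent or equal in
`mapG h`): contradiction.  Otherwise `h^[i] x = g^[i] x = g^[j] y = h^[j] y` and `x`, `y` are in the same
component of `mapG h`: contradiction.
`dist_local`: `Dist f u ↔ Dist h u` if `f = h` on `orbS f u` (reachability of two vertices = their orbits
meet: `mapG_reach` (One/N9) and its converse; the orbits of `u i` are the same for `f` and `h`).
`dist_step`: `swap_le` (U21) with `E = {(f, g) | Dist f (cons x (cons y u))}` (all `g`), `R (f, g) = orbS f u`,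
`E' = {(f', g') | Dist f' u ∧ ¬ Meets g' t x y}`: `(f', g') = swp S (f, g)`, `f = pw S f' g'`, `orbS f' u = S`.
`pr_pairs`; `pr {¬ Meets} = 1 - pr {Meets}`.
-/

namespace EA42

open scoped Classical

/-- The orbits of the vertices `u i`. -/
def orbS {V : Type*} {m : ℕ} (f : V → V) (u : Fin m → V) : Set V := {z | ∃ i a, f^[a] (u i) = z}

theorem W7_reach_iter {V : Type*} (f : V → V) (x : V) (i : ℕ) : (mapG f).Reachable x (f^[i] x) := by
  induction i with
  | zero => exact SimpleGraph.Reachable.refl _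
  | succ i ih =>
    refine ih.trans ?_
    rw [Function.iterate_succ_apply']
    by_cases h : f^[i] x = f (f^[i] x)
    · rw [← h]
    · apply SimpleGraph.Adj.reachable
      unfold mapG
      rw [SimpleGraph.fromRel_adj]
      exact ⟨h, Or.inl rfl⟩

theorem reach_of_meet {V : Type*} (f : V → V) {x y : V} {i j : ℕ} (h : f^[i] x = f^[j] y) :
    (mapG f).Reachable x y := by
  have h1 := W7_reach_iter f x i
  have h2 := W7_reach_iter f y j
  rw [h] at h1
  exact h1.trans h2.symm

theorem W7_dist_iff {V : Type*} {m : ℕ} (f : V → V) (u : Fin m → V) :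
    Dist f u ↔ ∀ i j, i ≠ j → ∀ a b : ℕ, f^[a] (u i) ≠ f^[b] (u j) := by
  constructor
  · intro h i j hij a b he
    exact h i j hij (reach_of_meet f he)
  · intro h i j hij hr
    obtain ⟨a, b, hab⟩ := mapG_reach f hr
    exact h i j hij a b hab

theorem W7_iter {V : Type*} {m : ℕ} (f h : V → V) (u : Fin m → V)
    (hfh : ∀ z ∈ orbS f u, h z = f z) (i : Fin m) (a : ℕ) : h^[a] (u i) = f^[a] (u i) := by
  induction a with
  | zero => rfl
  | succ a ih =>
    rw [Function.iterate_succ_apply', Function.iterate_succ_apply', ih]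
    exact hfh _ ⟨i, a, rfl⟩

theorem dist_local {V : Type*} {m : ℕ} (f h : V → V) (u : Fin m → V)
    (hfh : ∀ z ∈ orbS f u, h z = f z) : (Dist f u ↔ Dist h u) ∧ orbS h u = orbS f u := by
  have hit := W7_iter f h u hfh
  refine ⟨?_, ?_⟩
  · rw [W7_dist_iff, W7_dist_iff]
    constructor
    · intro H i j hij a b
      rw [hit, hit]
      exact H i j hij a b
    · intro H i j hij a b
      rw [← hit, ← hit]
      exact H i j hij a b
  · ext z
    constructor
    · rintro ⟨i, a, rfl⟩
      exact ⟨i, a, (hit i a).symm⟩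
    · rintro ⟨i, a, rfl⟩
      exact ⟨i, a, hit i a⟩

theorem W7_pw_on {V : Type*} {m : ℕ} (f g : V → V) (u : Fin m → V) (i : Fin m) (a : ℕ) :
    (pw (orbS f u) f g)^[a] (u i) = f^[a] (u i) := by
  apply W7_iter f (pw (orbS f u) f g) u
  intro z hz
  unfold pw
  rw [if_pos hz]

theorem W7_pw_off {V : Type*} (S : Set V) (f g : V → V) (x : V) (a : ℕ)
    (ha : ∀ b < a, g^[b] x ∉ S) : (pw S f g)^[a] x = g^[a] x := by
  induction a with
  | zero => rfl
  | succ a ih =>
    rw [Function.iterate_succ_apply', Function.iterate_succ_apply',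
      ih fun b hb => ha b (by omega)]
    have h1 := ha a (by omega)
    show (if g^[a] x ∈ S then _ else _) = _
    rw [if_neg h1]

theorem W7_dich {V : Type*} {m : ℕ} (f g : V → V) (u : Fin m → V) (x : V) :
    (∃ i' a c, (pw (orbS f u) f g)^[a] x = (pw (orbS f u) f g)^[c] (u i')) ∨
      ∀ a, (pw (orbS f u) f g)^[a] x = g^[a] x := by
  by_cases h : ∃ a, g^[a] x ∈ orbS f u
  · left
    obtain ⟨i', c, hc⟩ := Nat.find_spec h
    refine ⟨i', Nat.find h, c, ?_⟩
    rw [W7_pw_on f g u i' c, hc]
    exact W7_pw_off _ f g x _ fun b hb => Nat.find_min h hb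
  · right
    intro a
    exact W7_pw_off _ f g x a fun b _ hb => h ⟨b, hb⟩

theorem dist_det {V : Type*} {m : ℕ} (f g : V → V) (u : Fin m → V) (t : ℕ) (x y : V)
    (hd : Dist (pw (orbS f u) f g)
      (Fin.cons x (Fin.cons y u : Fin (m + 1) → V) : Fin (m + 2) → V)) :
    ¬ Meets g t x y := by
  rintro ⟨i, -, j, -, -, -, hij, -⟩
  rcases W7_dich f g u x with ⟨i', a, c, h1⟩ | hx
  · exact hd 0 i'.succ.succ (Fin.succ_ne_zero _).symm (reach_of_meet _ h1)
  · rcases W7_dich f g u y with ⟨i', a, c, h1⟩ | hy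
    · refine hd (Fin.succ 0) i'.succ.succ ?_ (reach_of_meet _ h1)
      intro h2
      exact (Fin.succ_ne_zero i').symm (Fin.succ_injective _ h2)
    · refine hd 0 (Fin.succ 0) (Fin.succ_ne_zero _).symm (reach_of_meet (i := i) (j := j) _ ?_)
      show (pw (orbS f u) f g)^[i] x = (pw (orbS f u) f g)^[j] y
      rw [hx, hy, hij]

theorem dist_step {V : Type*} [Fintype V] [DecidableEq V] {B : V → Finset V}
    (hself : ∀ u, u ∈ B u) {m : ℕ} (t : ℕ) (u : Fin m → V) (x y : V) :
    pr (prodW (kerW B)) {f | Dist f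
      (Fin.cons x (Fin.cons y u : Fin (m + 1) → V) : Fin (m + 2) → V)} ≤
      pr (prodW (kerW B)) {f | Dist f u} *
        (1 - pr (prodW (kerW B)) {g | Meets g t x y}) := by
  have hP := isProb_prodW (fun i => isProb_kerW hself i)
  have hpw : ∀ (S : Set V) (f g : V → V), pw S (pw S f g) (pw S g f) = f := by
    intro S f g
    funext x
    unfold pw
    by_cases hx : x ∈ S
    · rw [if_pos hx, if_pos hx]
    · rw [if_neg hx, if_neg hx]
  have hloc : ∀ f g : V → V, (Dist f u ↔ Dist (pw (orbS f u) f g) u) ∧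
      orbS (pw (orbS f u) f g) u = orbS f u := by
    intro f g
    apply dist_local
    intro z hz
    unfold pw
    rw [if_pos hz]
  have key := swap_le (B := B) {p : (V → V) × (V → V) | Dist p.1
      (Fin.cons x (Fin.cons y u : Fin (m + 1) → V) : Fin (m + 2) → V)}
    {p : (V → V) × (V → V) | Dist p.1 u ∧ ¬ Meets p.2 t x y} (fun p => orbS p.1 u)
    (by
      rintro ⟨f, g⟩ hf
      have hf' : Dist f (Fin.cons x (Fin.cons y u : Fin (m + 1) → V) : Fin (m + 2) → V) := hf
      have h1 : Dist f u := by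
        intro i j hij
        refine hf' i.succ.succ j.succ.succ ?_
        intro h
        exact hij (Fin.succ_injective _ (Fin.succ_injective _ h))
      refine ⟨(hloc f g).1.1 h1, ?_⟩
      show ¬ Meets (pw (orbS f u) g f) t x y
      apply dist_det (pw (orbS f u) f g) (pw (orbS f u) g f) u t x y
      rw [(hloc f g).2, hpw]
      exact hf')
    (by
      rintro ⟨f, g⟩ - ⟨f', g'⟩ - heq
      have h1 : pw (orbS f u) f g = pw (orbS f' u) f' g' := congrArg Prod.fst heq
      show orbS f u = orbS f' u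
      rw [← (hloc f g).2, ← (hloc f' g').2, h1])
  rw [pr_pairs, pr_pairs] at key
  have e1 : ∑ f, prodW (kerW B) f * pr (prodW (kerW B))
      {g | (f, g) ∈ {p : (V → V) × (V → V) | Dist p.1
        (Fin.cons x (Fin.cons y u : Fin (m + 1) → V) : Fin (m + 2) → V)}} =
      pr (prodW (kerW B)) {f | Dist f
        (Fin.cons x (Fin.cons y u : Fin (m + 1) → V) : Fin (m + 2) → V)} := by
    conv_rhs => rw [pr]
    refine Finset.sum_congr rfl fun f _ => ?_
    by_cases hf : f ∈ {f : V → V | Dist f
        (Fin.cons x (Fin.cons y u : Fin (m + 1) → V) : Fin (m + 2) → V)}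
    · rw [if_pos hf]
      have h0 : {g : V → V | (f, g) ∈ {p : (V → V) × (V → V) | Dist p.1
          (Fin.cons x (Fin.cons y u : Fin (m + 1) → V) : Fin (m + 2) → V)}} = Set.univ :=
        Set.eq_univ_of_forall fun g => hf
      rw [h0, pr_univ hP, mul_one]
    · rw [if_neg hf]
      have h0 : {g : V → V | (f, g) ∈ {p : (V → V) × (V → V) | Dist p.1
          (Fin.cons x (Fin.cons y u : Fin (m + 1) → V) : Fin (m + 2) → V)}} = ∅ :=
        Set.eq_empty_of_forall_notMem fun g hg => hf hg
      rw [h0]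
      unfold pr
      simp
  have e2 : ∑ f, prodW (kerW B) f * pr (prodW (kerW B))
      {g | (f, g) ∈ {p : (V → V) × (V → V) | Dist p.1 u ∧ ¬ Meets p.2 t x y}} =
      pr (prodW (kerW B)) {f | Dist f u} *
        (1 - pr (prodW (kerW B)) {g | Meets g t x y}) := by
    rw [← pr_compl hP]
    conv_rhs => rw [pr, Finset.sum_mul]
    refine Finset.sum_congr rfl fun f _ => ?_
    by_cases hf : f ∈ {f : V → V | Dist f u}
    · rw [if_pos hf]
      have h0 : {g : V → V | (f, g) ∈ {p : (V → V) × (V → V) | Dist p.1 u ∧ ¬ Meets p.2 t x y}} =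
          {g : V → V | Meets g t x y}ᶜ := by
        ext g
        constructor
        · intro hg
          exact hg.2
        · intro hg
          exact ⟨hf, hg⟩
      rw [h0]
    · rw [if_neg hf, zero_mul]
      have h0 : {g : V → V | (f, g) ∈ {p : (V → V) × (V → V) | Dist p.1 u ∧ ¬ Meets p.2 t x y}} =
          ∅ := Set.eq_empty_of_forall_notMem fun g hg => hf hg.1
      rw [h0]
      unfold pr
      simp
  rw [e1, e2] at key
  exact key

end EA42
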