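import Pool.Agent.Lib.MP_ea42c6_pr.Four.W7
import Pool.Agent.Lib.MP_ea42c6_pr.One.N1

/-!
# W8 — from many vertices to the largest component

`dist_pow`: induction on `g`: `∑_{u : Fin (2g+2) → V}` is `∑ x, ∑ y, ∑_{u : Fin (2g) → V}` with `cons x (cons y u)`
(`Fin.consEquiv` twice); `dist_step`; `∑ x y, (1 - pr Meets) ≤ (1 - c₀) n²`.
`dist_count`: `A m = #{u : Fin m → V | Dist f u}`; `Dist (cons x u) ↔ Dist u ∧ ∀ i, ¬ Reachable x (u i)`, and for
given `u` at most `m largest ≤ m c n` vertices `x` are excluded: `A (m+1) ≥ A m n (1 - m c)`.  Induction; if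
`1 - m c < 0` or `1 - m² c < 0` the claim for `m + 1` is trivial (`1 - (m+1)² c ≤ 0`).
`tight_abs`: `∑ u, pr {Dist f u} = ∑ f, w f A (2g) f ≥ n^(2g) (1 - (2g)² c) pr {largest < c n}`.
-/

namespace EA42

open scoped Classical

private theorem W8_sum_cons {V : Type*} [Fintype V] {m : ℕ} (F : (Fin (m + 1) → V) → ℝ) :
    ∑ u, F u = ∑ x, ∑ u : Fin m → V, F (Fin.cons x u : Fin (m + 1) → V) := by
  have h1 : ∑ u : Fin (m + 1) → V, F u =
      ∑ z : V × (Fin m → V), F (Fin.cons z.1 z.2 : Fin (m + 1) → V) :=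
    ((Fin.consEquiv (fun _ : Fin (m + 1) => V)).sum_comp F).symm
  rw [h1, Fintype.sum_prod_type]

theorem dist_pow {V : Type*} [Fintype V] [DecidableEq V] {B : V → Finset V}
    (hself : ∀ u, u ∈ B u) {t : ℕ} {c₀ : ℝ} (hc1 : c₀ ≤ 1)
    (hc : c₀ * (Fintype.card V : ℝ) ^ 2 ≤
      ∑ x, ∑ y, pr (prodW (kerW B)) {f | Meets f t x y}) (g : ℕ) :
    ∑ u : Fin (2 * g) → V, pr (prodW (kerW B)) {f | Dist f u} ≤
      ((1 - c₀) * (Fintype.card V : ℝ) ^ 2) ^ g := by
  have hP : IsProb (prodW (kerW B)) := isProb_prodW (isProb_kerW hself)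
  have hA : 0 ≤ (1 - c₀) * (Fintype.card V : ℝ) ^ 2 :=
    mul_nonneg (by linarith) (by positivity)
  have hM : ∑ x, ∑ y, (1 - pr (prodW (kerW B)) {f | Meets f t x y}) ≤
      (1 - c₀) * (Fintype.card V : ℝ) ^ 2 := by
    simp only [Finset.sum_sub_distrib]
    rw [Finset.sum_const, Finset.sum_const, Finset.card_univ, nsmul_eq_mul, nsmul_eq_mul]
    nlinarith [hc]
  have hM0 : 0 ≤ ∑ x, ∑ y, (1 - pr (prodW (kerW B)) {f | Meets f t x y}) :=
    Finset.sum_nonneg fun x _ => Finset.sum_nonneg fun y _ => sub_nonneg.2 (pr_le_one hP _)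
  induction g with
  | zero =>
    rw [pow_zero]
    have h1 : ∀ u : Fin (2 * 0) → V, pr (prodW (kerW B)) {f | Dist f u} ≤ 1 := fun u =>
      pr_le_one hP _
    have h2 : ∑ u : Fin (2 * 0) → V, pr (prodW (kerW B)) {f | Dist f u} ≤
        ∑ _u : Fin (2 * 0) → V, (1 : ℝ) := Finset.sum_le_sum fun u _ => h1 u
    rw [Finset.sum_const, Finset.card_univ, Fintype.card_fun, Fintype.card_fin] at h2
    simpa using h2
  | succ g ih =>
    have h1 : ∑ u : Fin (2 * (g + 1)) → V, pr (prodW (kerW B)) {f | Dist f u} =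
        ∑ x, ∑ y, ∑ u : Fin (2 * g) → V, pr (prodW (kerW B)) {f | Dist f
          (Fin.cons x (Fin.cons y u : Fin (2 * g + 1) → V) : Fin (2 * g + 2) → V)} := by
      have h2 := W8_sum_cons (V := V) (m := 2 * g + 1)
        (fun u => pr (prodW (kerW B)) {f | Dist f u})
      refine Eq.trans h2 ?_
      refine Finset.sum_congr rfl fun x _ => ?_
      exact W8_sum_cons (V := V) (m := 2 * g)
        (fun u => pr (prodW (kerW B)) {f | Dist f (Fin.cons x u : Fin (2 * g + 2) → V)})
    rw [h1]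
    have h3 : ∑ x, ∑ y, ∑ u : Fin (2 * g) → V, pr (prodW (kerW B)) {f | Dist f
          (Fin.cons x (Fin.cons y u : Fin (2 * g + 1) → V) : Fin (2 * g + 2) → V)} ≤
        ∑ x, ∑ y, ∑ u : Fin (2 * g) → V, pr (prodW (kerW B)) {f | Dist f u} *
          (1 - pr (prodW (kerW B)) {f | Meets f t x y}) :=
      Finset.sum_le_sum fun x _ => Finset.sum_le_sum fun y _ => Finset.sum_le_sum fun u _ =>
        dist_step hself t u x y
    refine h3.trans ?_
    have h4 : ∑ x, ∑ y, ∑ u : Fin (2 * g) → V, pr (prodW (kerW B)) {f | Dist f u} *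
          (1 - pr (prodW (kerW B)) {f | Meets f t x y}) =
        (∑ u : Fin (2 * g) → V, pr (prodW (kerW B)) {f | Dist f u}) *
          ∑ x, ∑ y, (1 - pr (prodW (kerW B)) {f | Meets f t x y}) := by
      rw [Finset.mul_sum]
      refine Finset.sum_congr rfl fun x _ => ?_
      rw [Finset.mul_sum]
      refine Finset.sum_congr rfl fun y _ => ?_
      rw [Finset.sum_mul]
    rw [h4, pow_succ]
    exact mul_le_mul ih hM hM0 (pow_nonneg hA g)

private theorem W8_dist_cons {V : Type*} (f : V → V) {m : ℕ} {u : Fin m → V} {x : V}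
    (hu : Dist f u) (hx : ∀ i, ¬ (mapG f).Reachable x (u i)) :
    Dist f (Fin.cons x u : Fin (m + 1) → V) := by
  intro i
  refine Fin.cases ?_ (fun i => ?_) i
  · intro j
    refine Fin.cases ?_ (fun j => ?_) j
    · intro h
      exact absurd rfl h
    · intro _
      rw [Fin.cons_zero, Fin.cons_succ]
      exact hx j
  · intro j
    refine Fin.cases ?_ (fun j => ?_) j
    · intro _ h
      rw [Fin.cons_zero, Fin.cons_succ] at h
      exact hx i h.symm
    · intro hij
      rw [Fin.cons_succ, Fin.cons_succ]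
      exact hu i j fun h => hij (by rw [h])

private theorem W8_excl {V : Type*} [Fintype V] (f : V → V) {m : ℕ} (u : Fin m → V) :
    ((Finset.univ.filter fun x => ∃ i, (mapG f).Reachable x (u i)).card : ℝ) ≤
      m * (largest (mapG f) : ℝ) := by
  have h1 : (Finset.univ.filter fun x => ∃ i, (mapG f).Reachable x (u i)) ⊆
      Finset.univ.biUnion fun i : Fin m =>
        Finset.univ.filter fun x => (mapG f).Reachable (u i) x := by
    intro x hx
    obtain ⟨i, hi⟩ := (Finset.mem_filter.1 hx).2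
    exact Finset.mem_biUnion.2 ⟨i, Finset.mem_univ i,
      Finset.mem_filter.2 ⟨Finset.mem_univ x, hi.symm⟩⟩
  have h2 : ∀ i ∈ (Finset.univ : Finset (Fin m)),
      (Finset.univ.filter fun x => (mapG f).Reachable (u i) x).card ≤ largest (mapG f) := by
    intro i _
    unfold largest
    exact Finset.le_sup (f := fun v => (Finset.univ.filter fun w => (mapG f).Reachable v w).card)
      (Finset.mem_univ (u i))
  have h3 := (Finset.card_le_card h1).trans (Finset.card_biUnion_le_card_mul _ _ _ h2)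
  rw [Finset.card_univ, Fintype.card_fin] at h3
  exact_mod_cast h3

theorem dist_count {V : Type*} [Fintype V] (f : V → V) {c : ℝ} (hc : 0 ≤ c)
    (hlt : (largest (mapG f) : ℝ) ≤ c * (Fintype.card V : ℝ)) (m : ℕ) :
    (Fintype.card V : ℝ) ^ m * (1 - (m : ℝ) ^ 2 * c) ≤
      ((Finset.univ.filter fun u : Fin m → V => Dist f u).card : ℝ) := by
  have hn : (0 : ℝ) ≤ Fintype.card V := Nat.cast_nonneg _
  have hA : ∀ m : ℕ, ((Finset.univ.filter fun u : Fin m → V => Dist f u).card : ℝ) =
      ∑ u : Fin m → V, if Dist f u then (1 : ℝ) else 0 := by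
    intro m
    rw [Finset.sum_ite, Finset.sum_const_zero, add_zero, Finset.sum_const, nsmul_eq_mul, mul_one]
  induction m with
  | zero =>
    have h1 : (Finset.univ.filter fun u : Fin 0 → V => Dist f u) = Finset.univ := by
      apply Finset.filter_true_of_mem
      intro u _ i
      exact i.elim0
    rw [h1, Finset.card_univ, Fintype.card_fun, Fintype.card_fin]
    simp
  | succ m ih =>
    have hstep : ((Finset.univ.filter fun u : Fin m → V => Dist f u).card : ℝ) *
        ((Fintype.card V : ℝ) * (1 - m * c)) ≤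
        ((Finset.univ.filter fun u : Fin (m + 1) → V => Dist f u).card : ℝ) := by
      rw [hA (m + 1), W8_sum_cons, Finset.sum_comm, hA m, Finset.sum_mul]
      refine Finset.sum_le_sum fun u _ => ?_
      by_cases hu : Dist f u
      · rw [if_pos hu, one_mul]
        have h1 : ((Finset.univ.filter fun x => ¬ ∃ i, (mapG f).Reachable x (u i)).card : ℝ) ≤
            ∑ x, if Dist f (Fin.cons x u : Fin (m + 1) → V) then (1 : ℝ) else 0 := by
          rw [Finset.sum_ite, Finset.sum_const_zero, add_zero, Finset.sum_const, nsmul_eq_mul,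
            mul_one]
          have h2 : (Finset.univ.filter fun x => ¬ ∃ i, (mapG f).Reachable x (u i)) ⊆
              Finset.univ.filter fun x => Dist f (Fin.cons x u : Fin (m + 1) → V) := by
            intro x hx
            have h3 := (Finset.mem_filter.1 hx).2
            exact Finset.mem_filter.2 ⟨Finset.mem_univ x,
              W8_dist_cons f hu fun i hi => h3 ⟨i, hi⟩⟩
          exact_mod_cast Finset.card_le_card h2
        refine le_trans ?_ h1
        have h4 := W8_excl f u
        have h5 : ((Finset.univ.filter fun x => ∃ i, (mapG f).Reachable x (u i)).card : ℝ) +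
            ((Finset.univ.filter fun x => ¬ ∃ i, (mapG f).Reachable x (u i)).card : ℝ) =
            Fintype.card V := by
          have := Finset.card_filter_add_card_filter_not (s := (Finset.univ : Finset V))
            (fun x => ∃ i, (mapG f).Reachable x (u i))
          rw [Finset.card_univ] at this
          exact_mod_cast this
        have h6 : (m : ℝ) * (largest (mapG f) : ℝ) ≤ m * (c * (Fintype.card V : ℝ)) :=
          mul_le_mul_of_nonneg_left hlt (Nat.cast_nonneg m)
        nlinarith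
      · rw [if_neg hu, zero_mul]
        exact Finset.sum_nonneg fun x _ => by
          split_ifs
          · exact zero_le_one
          · exact le_rfl
    have hm : (0 : ℝ) ≤ m := Nat.cast_nonneg m
    have hpow : (0 : ℝ) ≤ (Fintype.card V : ℝ) ^ m := pow_nonneg hn m
    have hpow1 : (0 : ℝ) ≤ (Fintype.card V : ℝ) ^ (m + 1) := pow_nonneg hn (m + 1)
    by_cases hmc : 0 ≤ 1 - m * c
    · refine le_trans ?_ hstep
      have h1 : (Fintype.card V : ℝ) ^ m * (1 - (m : ℝ) ^ 2 * c) *
          ((Fintype.card V : ℝ) * (1 - m * c)) ≤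
          ((Finset.univ.filter fun u : Fin m → V => Dist f u).card : ℝ) *
          ((Fintype.card V : ℝ) * (1 - m * c)) :=
        mul_le_mul_of_nonneg_right ih (mul_nonneg hn hmc)
      refine le_trans ?_ h1
      have h2 : (1 - ((m + 1 : ℕ) : ℝ) ^ 2 * c) ≤ (1 - (m : ℝ) ^ 2 * c) * (1 - m * c) := by
        push_cast
        have h3 : 0 ≤ (m : ℝ) ^ 2 * c * (m * c) := by positivity
        nlinarith [mul_nonneg hm hc]
      calc (Fintype.card V : ℝ) ^ (m + 1) * (1 - ((m + 1 : ℕ) : ℝ) ^ 2 * c)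
          ≤ (Fintype.card V : ℝ) ^ (m + 1) * ((1 - (m : ℝ) ^ 2 * c) * (1 - m * c)) :=
            mul_le_mul_of_nonneg_left h2 hpow1
        _ = _ := by rw [pow_succ]; ring
    · push Not at hmc
      have h1 : 1 - ((m + 1 : ℕ) : ℝ) ^ 2 * c ≤ 0 := by
        push_cast
        nlinarith [mul_nonneg hm hc, mul_nonneg (mul_nonneg hm hm) hc]
      have h2 : (Fintype.card V : ℝ) ^ (m + 1) * (1 - ((m + 1 : ℕ) : ℝ) ^ 2 * c) ≤ 0 :=
        mul_nonpos_of_nonneg_of_nonpos hpow1 h1
      exact h2.trans (Nat.cast_nonneg _)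

theorem tight_abs {V : Type*} [Fintype V] [DecidableEq V] [Nonempty V] {B : V → Finset V}
    (hself : ∀ u, u ∈ B u) {t : ℕ} {c₀ : ℝ} (hc1 : c₀ ≤ 1)
    (hc₀ : c₀ * (Fintype.card V : ℝ) ^ 2 ≤
      ∑ x, ∑ y, pr (prodW (kerW B)) {f | Meets f t x y}) (g : ℕ) {c : ℝ} (hc : 0 ≤ c) :
    (1 - (2 * (g : ℝ)) ^ 2 * c) *
      pr (prodW (kerW B)) {f | ¬ c * (Fintype.card V : ℝ) ≤ (largest (mapG f) : ℝ)} ≤
      (1 - c₀) ^ g := by
  have hP : IsProb (prodW (kerW B)) := isProb_prodW (isProb_kerW hself)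
  have hn : (0 : ℝ) < Fintype.card V := by exact_mod_cast Fintype.card_pos
  have h1 := dist_pow hself (t := t) hc1 hc₀ g
  have h2 : (Fintype.card V : ℝ) ^ (2 * g) * ((1 - (2 * (g : ℝ)) ^ 2 * c) *
      pr (prodW (kerW B)) {f | ¬ c * (Fintype.card V : ℝ) ≤ (largest (mapG f) : ℝ)}) ≤
      ∑ u : Fin (2 * g) → V, pr (prodW (kerW B)) {f | Dist f u} := by
    unfold pr
    rw [Finset.sum_comm, Finset.mul_sum, Finset.mul_sum]
    refine Finset.sum_le_sum fun f _ => ?_
    have h0 := hP.1 f
    have h3 : ∑ u : Fin (2 * g) → V, (if f ∈ {f : V → V | Dist f u} then prodW (kerW B) f else 0) =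
        ((Finset.univ.filter fun u : Fin (2 * g) → V => Dist f u).card : ℝ) *
          prodW (kerW B) f := by
      rw [Finset.sum_ite, Finset.sum_const_zero, add_zero, Finset.sum_const, nsmul_eq_mul]
      rfl
    rw [h3]
    by_cases h4 : f ∈ {f : V → V | ¬ c * (Fintype.card V : ℝ) ≤ (largest (mapG f) : ℝ)}
    · rw [if_pos h4]
      have h5 : (largest (mapG f) : ℝ) ≤ c * (Fintype.card V : ℝ) := (not_le.1 h4).le
      have h6 := dist_count f hc h5 (2 * g)
      push_cast at h6
      calc (Fintype.card V : ℝ) ^ (2 * g) * ((1 - (2 * (g : ℝ)) ^ 2 * c) * prodW (kerW B) f)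
          = ((Fintype.card V : ℝ) ^ (2 * g) * (1 - (2 * (g : ℝ)) ^ 2 * c)) *
            prodW (kerW B) f := by ring
        _ ≤ _ := mul_le_mul_of_nonneg_right h6 h0
    · rw [if_neg h4, mul_zero, mul_zero]
      positivity
  have h3 : (Fintype.card V : ℝ) ^ (2 * g) * ((1 - (2 * (g : ℝ)) ^ 2 * c) *
      pr (prodW (kerW B)) {f | ¬ c * (Fintype.card V : ℝ) ≤ (largest (mapG f) : ℝ)}) ≤
      (Fintype.card V : ℝ) ^ (2 * g) * (1 - c₀) ^ g := by
    refine (h2.trans h1).trans (le_of_eq ?_)
    rw [mul_pow, ← pow_mul, mul_comm]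
  exact le_of_mul_le_mul_left h3 (by positivity)

end EA42
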