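import Pool.Agent.Lib.MP_ea42c6_pr.Four.W6
import Pool.Agent.Lib.MP_ea42c6_pr.Four.W8

/-!
# W9 — choice of the parameters

`b = min a 1`, `τ = b/(64 κ⁵ H)`, `t = ⌊τ √n⌋₊` (`≥ 1` for large `n`; `τ √n ≤ t + 1`).  `hsmall`: for large `n`
`1 + log t ≤ 2 log n`, so `t (1 + log t)/D ≤ 2 τ/a`, `t²/n ≤ τ²`, `2 t/D ≤ 2τ/a`, `t (t+1)/n ≤ 2 τ²`: the left side is
at most `2κ²H (2τ/a + τ²) + κ³H (2τ/a + 2τ²) ≤ 16 κ³ H τ/b ≤ 1/(4κ²)`.
`c₀ = τ²/(4κ²) ≤ 1`: `meets_sum` gives `∑ ∑ pr Meets ≥ (t+1)² n/(4κ²) ≥ c₀ n²`.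
`g` with `(1 - c₀)^g ≤ η/2`, `c = 1/(8 g² + 1)`: `(2g)² c ≤ 1/2`; `tight_abs`: `(1/2) pr ≤ η/2`.
-/

namespace EA42

open scoped Classical

private theorem W9_num {κ H a b τ D T n L l : ℝ} (hκ : 1 ≤ κ) (hH : 1 ≤ H) (ha : 0 < a) (hb : 0 < b)
    (hba : b ≤ a) (hb1 : b ≤ 1) (hτ : τ = b / (64 * κ ^ 5 * H)) (hn : 0 < n) (hT1 : 1 ≤ T)
    (hT : T ≤ τ * Real.sqrt n) (hL : 1 ≤ L) (hl : 1 + l ≤ 2 * L) (hl0 : 0 ≤ l)
    (hD : a * (Real.sqrt n * L) ≤ D) :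
    2 * κ ^ 2 * H * (T * ((1 + l) / D + T / n)) + κ ^ 3 * H * (2 * T / D + T * (T + 1) / n) ≤
      1 / (2 * κ ^ 2) := by
  have hκ0 : 0 < κ := by linarith
  have hH0 : 0 < H := by linarith
  have hs : 0 < Real.sqrt n := Real.sqrt_pos.2 hn
  have hsn : Real.sqrt n * Real.sqrt n = n := Real.mul_self_sqrt hn.le
  have hden : 0 < 64 * κ ^ 5 * H := by positivity
  have hτ0 : 0 < τ := by rw [hτ]; positivity
  have hκ5 : 1 ≤ κ ^ 5 := one_le_pow₀ hκ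
  have hτb : τ ≤ b := by
    rw [hτ]
    refine div_le_self hb.le ?_
    nlinarith [mul_le_mul hκ5 hH zero_le_one (by positivity)]
  have hτ1 : τ ≤ 1 := hτb.trans hb1
  have hD0 : 0 < D := lt_of_lt_of_le (by positivity) hD
  have hTpos : 0 < T := by linarith
  -- the four terms
  have t1 : T * ((1 + l) / D) ≤ 2 * (τ / b) := by
    rw [← mul_div_assoc, div_le_iff₀ hD0]
    have e1 : T * (1 + l) ≤ (τ * Real.sqrt n) * (2 * L) :=
      mul_le_mul hT hl (by linarith) (by positivity)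
    have e2 : (τ * Real.sqrt n) * (2 * L) ≤ 2 * (τ / b) * D := by
      have e3 : 2 * (τ / b) * (a * (Real.sqrt n * L)) ≤ 2 * (τ / b) * D :=
        mul_le_mul_of_nonneg_left hD (by positivity)
      have e4 : (τ * Real.sqrt n) * (2 * L) ≤ 2 * (τ / b) * (a * (Real.sqrt n * L)) := by
        have e5 : (1 : ℝ) ≤ a / b := (one_le_div hb).2 hba
        have e6 : 2 * (τ / b) * (a * (Real.sqrt n * L)) = (τ * Real.sqrt n) * (2 * L) * (a / b) := by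
          field_simp
        rw [e6]
        exact le_mul_of_one_le_right (by positivity) e5
      exact e4.trans e3
    exact e1.trans e2
  have hτ2 : τ ^ 2 ≤ τ / b := by
    rw [le_div_iff₀ hb]
    nlinarith
  have hTT : T * T ≤ τ ^ 2 * n := by
    have := mul_le_mul hT hT hTpos.le (by positivity)
    calc T * T ≤ (τ * Real.sqrt n) * (τ * Real.sqrt n) := this
      _ = τ ^ 2 * (Real.sqrt n * Real.sqrt n) := by ring
      _ = _ := by rw [hsn]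
  have t2 : T * (T / n) ≤ τ / b := by
    rw [← mul_div_assoc, div_le_iff₀ hn]
    exact hTT.trans (mul_le_mul_of_nonneg_right hτ2 hn.le)
  have t3 : 2 * T / D ≤ 2 * (τ / b) := by
    rw [div_le_iff₀ hD0]
    have e3 : 2 * (τ / b) * (a * (Real.sqrt n * L)) ≤ 2 * (τ / b) * D :=
      mul_le_mul_of_nonneg_left hD (by positivity)
    have e5 : (1 : ℝ) ≤ a / b := (one_le_div hb).2 hba
    have e6 : 2 * (τ / b) * (a * (Real.sqrt n * L)) = 2 * (τ * Real.sqrt n) * (L * (a / b)) := by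
      field_simp
    have e7 : 2 * T ≤ 2 * (τ * Real.sqrt n) * (L * (a / b)) := by
      have e8 : (1 : ℝ) ≤ L * (a / b) := by nlinarith
      have e9 : 2 * (τ * Real.sqrt n) ≤ 2 * (τ * Real.sqrt n) * (L * (a / b)) :=
        le_mul_of_one_le_right (by positivity) e8
      linarith
    linarith
  have t4 : T * (T + 1) / n ≤ 2 * (τ / b) := by
    rw [div_le_iff₀ hn]
    have e1 : T * (T + 1) ≤ 2 * (T * T) := by nlinarith
    have e2 : τ ^ 2 * n ≤ τ / b * n := mul_le_mul_of_nonneg_right hτ2 hn.le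
    linarith
  have hq : 0 ≤ τ / b := by positivity
  have s1 : T * ((1 + l) / D + T / n) ≤ 3 * (τ / b) := by
    rw [mul_add]
    linarith
  have s2 : 2 * T / D + T * (T + 1) / n ≤ 4 * (τ / b) := by linarith
  have hκ23 : κ ^ 2 ≤ κ ^ 3 := pow_le_pow_right₀ hκ (by norm_num)
  have f1 : 2 * κ ^ 2 * H * (T * ((1 + l) / D + T / n)) ≤ 2 * κ ^ 3 * H * (3 * (τ / b)) := by
    refine mul_le_mul ?_ s1 (by positivity) (by positivity)
    exact mul_le_mul_of_nonneg_right (by linarith) hH0.le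
  have f2 : κ ^ 3 * H * (2 * T / D + T * (T + 1) / n) ≤ κ ^ 3 * H * (4 * (τ / b)) :=
    mul_le_mul_of_nonneg_left s2 (by positivity)
  have f3 : 2 * κ ^ 3 * H * (3 * (τ / b)) + κ ^ 3 * H * (4 * (τ / b)) = 10 / (64 * κ ^ 2) := by
    rw [hτ]
    field_simp
    ring
  have f4 : 10 / (64 * κ ^ 2) ≤ 1 / (2 * κ ^ 2) := by
    rw [div_le_div_iff₀ (by positivity) (by positivity)]
    nlinarith [sq_nonneg κ]
  linarith

theorem above_abs {κ H g0 a η : ℝ} (hκ : 1 ≤ κ) (hH : 1 ≤ H) (ha : 0 < a) (hη : 0 < η) :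
    ∃ c : ℝ, 0 < c ∧ ∃ n₀ : ℕ, ∀ n : ℕ, n₀ ≤ n → ∀ (B : Fin n → Finset (Fin n)) (D : ℝ),
      HK B D κ H g0 → a * (Real.sqrt n * Real.log n) ≤ D →
      pr (prodW (kerW B)) {f | ¬ c * (n : ℝ) ≤ (largest (mapG f) : ℝ)} ≤ η := by
  have hκ0 : 0 < κ := by linarith
  have hH0 : 0 < H := by linarith
  set b : ℝ := min a 1 with hbdef
  have hb : 0 < b := lt_min ha one_pos
  have hba : b ≤ a := min_le_left _ _
  have hb1 : b ≤ 1 := min_le_right _ _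
  obtain ⟨τ, hτ⟩ : ∃ τ, τ = b / (64 * κ ^ 5 * H) := ⟨_, rfl⟩
  have hden : 0 < 64 * κ ^ 5 * H := by positivity
  have hτ0 : 0 < τ := by rw [hτ]; positivity
  have hκ5 : 1 ≤ κ ^ 5 := one_le_pow₀ hκ
  have hτ1 : τ ≤ 1 := by
    rw [hτ]
    refine (div_le_self hb.le ?_).trans hb1
    nlinarith [mul_le_mul hκ5 hH zero_le_one (by positivity)]
  obtain ⟨c₀, hc₀⟩ : ∃ c₀, c₀ = τ ^ 2 / (4 * κ ^ 2) := ⟨_, rfl⟩
  have hc0pos : 0 < c₀ := by rw [hc₀]; positivity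
  have hc01 : c₀ ≤ 1 := by
    rw [hc₀, div_le_one (by positivity)]
    nlinarith [one_le_pow₀ (n := 2) hκ]
  obtain ⟨g, hg⟩ := exists_pow_lt_of_lt_one (half_pos hη) (show 1 - c₀ < 1 by linarith)
  have hcpos : (0 : ℝ) < 1 / (8 * (g : ℝ) ^ 2 + 1) := by positivity
  refine ⟨1 / (8 * (g : ℝ) ^ 2 + 1), hcpos, max 3 ⌈1 / τ ^ 2⌉₊, ?_⟩
  intro n hn B D hB hD
  have hn3 : 3 ≤ n := (le_max_left _ _).trans hn
  have hnτ : 1 / τ ^ 2 ≤ (n : ℝ) := Nat.ceil_le.1 ((le_max_right _ _).trans hn)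
  have hn0 : (0 : ℝ) < n := by
    have : 0 < n := by omega
    exact_mod_cast this
  have : Nonempty (Fin n) := ⟨⟨0, by omega⟩⟩
  have hn3' : (3 : ℝ) ≤ n := by exact_mod_cast hn3
  have hlog : 1 ≤ Real.log n := by
    rw [Real.le_log_iff_exp_le hn0]
    have := Real.exp_one_lt_d9
    linarith
  have hsq : 1 ≤ τ * Real.sqrt n := by
    have h1 : 1 ≤ τ ^ 2 * n := by
      rw [div_le_iff₀ (by positivity)] at hnτ
      linarith
    have h2 : Real.sqrt (τ ^ 2 * n) = τ * Real.sqrt n := by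
      rw [Real.sqrt_mul (by positivity), Real.sqrt_sq hτ0.le]
    rw [← h2]
    exact Real.one_le_sqrt.2 h1
  have ht1 : 1 ≤ ⌊τ * Real.sqrt n⌋₊ := Nat.le_floor (by simpa using hsq)
  have hT1 : (1 : ℝ) ≤ (⌊τ * Real.sqrt n⌋₊ : ℝ) := by exact_mod_cast ht1
  have hT : (⌊τ * Real.sqrt n⌋₊ : ℝ) ≤ τ * Real.sqrt n := Nat.floor_le (by positivity)
  have hT' : τ * Real.sqrt n ≤ (⌊τ * Real.sqrt n⌋₊ : ℝ) + 1 := (Nat.lt_floor_add_one _).le
  have hl0 : 0 ≤ Real.log (⌊τ * Real.sqrt n⌋₊ : ℝ) := Real.log_nonneg hT1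
  have hl : 1 + Real.log (⌊τ * Real.sqrt n⌋₊ : ℝ) ≤ 2 * Real.log n := by
    have h1 : Real.log (⌊τ * Real.sqrt n⌋₊ : ℝ) ≤ Real.log (Real.sqrt n) := by
      refine Real.log_le_log (by linarith) (hT.trans ?_)
      exact mul_le_of_le_one_left (Real.sqrt_nonneg _) hτ1
    rw [Real.log_sqrt hn0.le] at h1
    linarith
  have hsmall := W9_num hκ hH ha hb hba hb1 hτ hn0 hT1 hT hlog hl hl0 hD
  have hcard : ((Fintype.card (Fin n) : ℕ) : ℝ) = (n : ℝ) := by rw [Fintype.card_fin]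
  have h1 := meets_sum hB hκ hH ht1 (by rw [hcard]; exact hsmall)
  rw [hcard] at h1
  have h2 : c₀ * ((Fintype.card (Fin n) : ℕ) : ℝ) ^ 2 ≤
      ∑ x, ∑ y, pr (prodW (kerW B)) {f | Meets f ⌊τ * Real.sqrt n⌋₊ x y} := by
    rw [hcard]
    refine le_trans ?_ h1
    rw [hc₀]
    have h3 : τ ^ 2 * n ≤ ((⌊τ * Real.sqrt n⌋₊ : ℝ) + 1) ^ 2 := by
      have h4 : (τ * Real.sqrt n) ^ 2 ≤ ((⌊τ * Real.sqrt n⌋₊ : ℝ) + 1) ^ 2 :=
        pow_le_pow_left₀ (by positivity) hT' 2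
      rw [mul_pow, Real.sq_sqrt hn0.le] at h4
      exact h4
    have h5 : τ ^ 2 / (4 * κ ^ 2) * (n : ℝ) ^ 2 = (τ ^ 2 * n) * n / (4 * κ ^ 2) := by ring
    rw [h5]
    exact div_le_div_of_nonneg_right (mul_le_mul_of_nonneg_right h3 hn0.le) (by positivity)
  have h3 := tight_abs hB.reg.sym.self hc01 h2 g hcpos.le
  rw [hcard] at h3
  by_contra hc
  rw [not_le] at hc
  set q := pr (prodW (kerW B)) {f | ¬ 1 / (8 * (g : ℝ) ^ 2 + 1) * (n : ℝ) ≤ (largest (mapG f) : ℝ)} with hq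
  have h4 : (1 : ℝ) / 2 ≤ 1 - (2 * (g : ℝ)) ^ 2 * (1 / (8 * (g : ℝ) ^ 2 + 1)) := by
    have h5 : (2 * (g : ℝ)) ^ 2 * (1 / (8 * (g : ℝ) ^ 2 + 1)) ≤ 1 / 2 := by
      rw [mul_one_div, div_le_div_iff₀ (by positivity) (by norm_num)]
      nlinarith [sq_nonneg (g : ℝ)]
    linarith
  have h5 : 1 / 2 * q ≤ (1 - (2 * (g : ℝ)) ^ 2 * (1 / (8 * (g : ℝ) ^ 2 + 1))) * q :=
    mul_le_mul_of_nonneg_right h4 (by linarith)
  linarith

end EA42
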